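import Pool.Agent.Helper79.FE.DZb

set_option autoImplicit false

/-!
# The field generated by all roots of unity over a number field
-/

namespace Pool.Agent.Helper79.FE

open Polynomial IntermediateField Module

universe u

section

variable (Ω : Type u) [Field Ω] [CharZero Ω] [IsAlgClosed Ω] (m : ℚ[X])

/-- the polynomials -/
noncomputable def pp : Option ℕ → ℚ[X]
  | none => m
  | some n => X ^ (n + 1) - 1

/-- the field generated by the roots of `m` and all roots of unity -/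
noncomputable def NF : IntermediateField ℚ Ω := ⨆ i : Option ℕ, IntermediateField.adjoin ℚ ((pp m i).rootSet Ω)

instance nf_normal : Normal ℚ (NF Ω m) := by
  have h : ∀ i : Option ℕ, Normal ℚ (IntermediateField.adjoin ℚ ((pp m i).rootSet Ω)) := fun i =>
    Normal.of_isSplittingField (hFEp := IntermediateField.adjoin_rootSet_isSplittingField
      (IsAlgClosed.splits ((pp m i).map (algebraMap ℚ Ω))))
  exact @IntermediateField.normal_iSup ℚ Ω _ _ _ (Option ℕ)
    (fun i => IntermediateField.adjoin ℚ ((pp m i).rootSet Ω)) h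

omit [IsAlgClosed Ω] in
theorem nf_root {i : Option ℕ} {x : Ω} (hx : x ∈ (pp m i).rootSet Ω) : x ∈ NF Ω m := by
  have h : IntermediateField.adjoin ℚ ((pp m i).rootSet Ω) ≤ NF Ω m :=
    le_iSup (fun i : Option ℕ => IntermediateField.adjoin ℚ ((pp m i).rootSet Ω)) i
  exact h (IntermediateField.subset_adjoin _ _ hx)

omit [IsAlgClosed Ω] in
theorem nf_mem (hm : m ≠ 0) {x : Ω} (hx : aeval x m = 0) : x ∈ NF Ω m := by
  refine nf_root Ω m (i := none) ?_
  rw [mem_rootSet]
  exact ⟨hm, hx⟩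

omit [IsAlgClosed Ω] in
theorem nf_unity {n : ℕ} (hn : 0 < n) {x : Ω} (hx : x ^ n = 1) : x ∈ NF Ω m := by
  refine nf_root Ω m (i := some (n - 1)) ?_
  rw [mem_rootSet]
  constructor
  · show X ^ (n - 1 + 1) - 1 ≠ 0
    exact X_pow_sub_C_ne_zero (by omega) 1
  · show aeval x (X ^ (n - 1 + 1) - 1) = 0
    rw [Nat.sub_add_cancel hn, map_sub, map_pow, aeval_X, map_one, hx, sub_self]

theorem nf_prim (n : ℕ) (hn : 0 < n) : ∃ ζ : NF Ω m, IsPrimitiveRoot ζ n := by
  have : NeZero (n : Ω) := ⟨by exact_mod_cast hn.ne'⟩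
  have : NeZero n := ⟨hn.ne'⟩
  obtain ⟨ζ, hζ⟩ := IsAlgClosed.exists_root (cyclotomic n Ω) (by
    rw [degree_cyclotomic]
    exact_mod_cast (Nat.totient_pos.2 hn).ne')
  have h1 : IsPrimitiveRoot ζ n := isRoot_cyclotomic_iff.1 hζ
  refine ⟨⟨ζ, nf_unity Ω m hn h1.pow_eq_one⟩, ?_⟩
  exact IsPrimitiveRoot.of_map_of_injective (f := algebraMap (NF Ω m) Ω) (by exact h1)
    (algebraMap (NF Ω m) Ω).injective

/-- the finite part -/
noncomputable def K1 : IntermediateField ℚ (NF Ω m) := IntermediateField.adjoin ℚ (m.rootSet (NF Ω m))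

theorem k1_fin : FiniteDimensional ℚ (K1 Ω m) := by
  have : Finite (m.rootSet (NF Ω m)) := rootSet_finite _ _
  exact IntermediateField.finiteDimensional_adjoin fun x _ => Algebra.IsIntegral.isIntegral x

theorem nf_fin (x : NF Ω m) : ∃ (n : ℕ) (ζ : NF Ω m), 0 < n ∧ IsPrimitiveRoot ζ n ∧
    x ∈ IntermediateField.adjoin (K1 Ω m) {ζ} := by
  classical
  let D : Type := {n : ℕ // 0 < n}
  choose z hz using fun n : D => nf_prim Ω m n.1 n.2
  let A : D → IntermediateField (K1 Ω m) (NF Ω m) := fun n => IntermediateField.adjoin (K1 Ω m) {z n}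
  have hmono : ∀ n k : D, A n ≤ A ⟨n.1 * k.1, Nat.mul_pos n.2 k.2⟩ := by
    intro n k
    show IntermediateField.adjoin (K1 Ω m) {z n} ≤ _
    rw [IntermediateField.adjoin_simple_le_iff]
    have : NeZero n.1 := ⟨n.2.ne'⟩
    have h1 : IsPrimitiveRoot (z ⟨n.1 * k.1, Nat.mul_pos n.2 k.2⟩ ^ k.1) n.1 :=
      (hz _).pow (Nat.mul_pos n.2 k.2) (by ring)
    obtain ⟨j, hj, h2⟩ := h1.eq_pow_of_pow_eq_one (hz n).pow_eq_one
    rw [← h2]
    exact pow_mem (pow_mem (IntermediateField.mem_adjoin_simple_self _ _) _) _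
  have hmono2 : ∀ n k : D, A k ≤ A ⟨n.1 * k.1, Nat.mul_pos n.2 k.2⟩ := by
    intro n k
    have h := hmono k n
    have e : (⟨k.1 * n.1, Nat.mul_pos k.2 n.2⟩ : D) = ⟨n.1 * k.1, Nat.mul_pos n.2 k.2⟩ :=
      Subtype.ext (mul_comm _ _)
    rwa [e] at h
  -- the subfield of all elements in some `A n`
  have hmain : ∀ (y : Ω) (hy : y ∈ NF Ω m), ∃ n : D, (⟨y, hy⟩ : NF Ω m) ∈ A n := by
    have h0 : NF Ω m = IntermediateField.adjoin ℚ (⋃ i : Option ℕ, (pp m i).rootSet Ω) := by
      rw [IntermediateField.adjoin_iUnion]; rfl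
    intro y hy
    have hy' := hy
    rw [h0] at hy'
    have key : ∀ y : Ω, y ∈ IntermediateField.adjoin ℚ (⋃ i : Option ℕ, (pp m i).rootSet Ω) →
        ∃ (h : y ∈ NF Ω m) (n : D), (⟨y, h⟩ : NF Ω m) ∈ A n := by
      intro y hy
      induction hy using IntermediateField.adjoin_induction with
      | mem y hy =>
        obtain ⟨i, hi⟩ := Set.mem_iUnion.1 hy
        have hyN := nf_root Ω m hi
        refine ⟨hyN, ?_⟩
        cases i with
        | none =>
          refine ⟨⟨1, one_pos⟩, ?_⟩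
          have h1 : (⟨y, hyN⟩ : NF Ω m) ∈ K1 Ω m := by
            refine IntermediateField.subset_adjoin _ _ ?_
            rw [mem_rootSet] at hi ⊢
            refine ⟨hi.1, ?_⟩
            have h2 : algebraMap (NF Ω m) Ω (aeval (⟨y, hyN⟩ : NF Ω m) m) = 0 := by
              rw [← aeval_algebraMap_apply]
              exact hi.2
            exact (map_eq_zero_iff _ (algebraMap (NF Ω m) Ω).injective).1 h2
          exact (A _).algebraMap_mem ⟨⟨y, hyN⟩, h1⟩
        | some n =>
          refine ⟨⟨n + 1, Nat.succ_pos n⟩, ?_⟩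
          rw [mem_rootSet] at hi
          have h1 : y ^ (n + 1) = 1 := by
            have h2 := hi.2
            change aeval y (X ^ (n + 1) - 1) = 0 at h2
            rw [map_sub, map_pow, aeval_X, map_one, sub_eq_zero] at h2
            exact h2
          have h2 : (⟨y, hyN⟩ : NF Ω m) ^ (n + 1) = 1 := Subtype.ext h1
          have : NeZero (n + 1) := ⟨Nat.succ_ne_zero n⟩
          obtain ⟨j, hj, h3⟩ := (hz ⟨n + 1, Nat.succ_pos n⟩).eq_pow_of_pow_eq_one h2
          rw [← h3]
          exact pow_mem (IntermediateField.mem_adjoin_simple_self _ _) _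
      | algebraMap y =>
        refine ⟨(NF Ω m).algebraMap_mem y, ⟨1, one_pos⟩, ?_⟩
        have h1 : (algebraMap ℚ (NF Ω m) y) ∈ A ⟨1, one_pos⟩ := by
          rw [IsScalarTower.algebraMap_apply ℚ (K1 Ω m) (NF Ω m)]
          exact (A _).algebraMap_mem _
        exact h1
      | add x y _ _ hx hy =>
        obtain ⟨hx, n, hn⟩ := hx
        obtain ⟨hy, k, hk⟩ := hy
        exact ⟨add_mem hx hy, ⟨n.1 * k.1, Nat.mul_pos n.2 k.2⟩, add_mem (hmono n k hn) (hmono2 n k hk)⟩
      | mul x y _ _ hx hy =>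
        obtain ⟨hx, n, hn⟩ := hx
        obtain ⟨hy, k, hk⟩ := hy
        exact ⟨mul_mem hx hy, ⟨n.1 * k.1, Nat.mul_pos n.2 k.2⟩, mul_mem (hmono n k hn) (hmono2 n k hk)⟩
      | inv x _ hx =>
        obtain ⟨hx, n, hn⟩ := hx
        exact ⟨inv_mem hx, n, inv_mem hn⟩
    obtain ⟨_, n, hn⟩ := key y hy'
    exact ⟨n, hn⟩
  obtain ⟨n, hn⟩ := hmain x.1 x.2
  exact ⟨n.1, z n, n.2, hz n, hn⟩

theorem nf_cyc : CycF (NF Ω m) := ⟨nf_normal Ω m, nf_prim Ω m, K1 Ω m, k1_fin Ω m, nf_fin Ω m⟩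

end

/-- the image of a subfield of `K(μ_∞)` -/
theorem img_nf {K M Ω : Type*} [Field K] [NumberField K] [Field M] [Algebra K M] [Field Ω] [CharZero Ω]
    [IsAlgClosed Ω] (hM : ∀ x : M, ∃ (n : ℕ) (ζ : AlgebraicClosure M), 0 < n ∧ ζ ^ n = 1 ∧
      algebraMap M (AlgebraicClosure M) x ∈ IntermediateField.adjoin K {ζ})
    (j : M →+* Ω) (α : K) (hα : ℚ⟮α⟯ = ⊤) (x : M) : j x ∈ NF Ω (minpoly ℚ α) := by
  classical
  let _ := j.toAlgebra
  let J : AlgebraicClosure M →ₐ[M] Ω := IsAlgClosed.lift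
  have hJ : ∀ y : M, J (algebraMap M (AlgebraicClosure M) y) = j y := fun y => J.commutes y
  have hK : ∀ a : K, j (algebraMap K M a) ∈ NF Ω (minpoly ℚ α) := by
    let φ : K →+* Ω := j.comp (algebraMap K M)
    have hroot : φ α ∈ NF Ω (minpoly ℚ α) := by
      have hi : IsIntegral ℚ α := Algebra.IsIntegral.isIntegral α
      refine nf_mem Ω _ (minpoly.ne_zero hi) ?_
      have h1 : aeval (φ.toRatAlgHom α) (minpoly ℚ α) = φ.toRatAlgHom (aeval α (minpoly ℚ α)) :=
        aeval_algHom_apply _ _ _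
      rw [minpoly.aeval, map_zero] at h1
      exact h1
    intro a
    have ha : a ∈ ℚ⟮α⟯ := by rw [hα]; trivial
    show φ a ∈ _
    induction ha using IntermediateField.adjoin_induction with
    | mem y hy =>
      rw [Set.mem_singleton_iff.1 hy]
      exact hroot
    | algebraMap y =>
      have h1 : φ (algebraMap ℚ K y) = algebraMap ℚ Ω y := by simp
      rw [h1]
      exact (NF Ω _).algebraMap_mem y
    | add x y _ _ hx hy => rw [map_add]; exact add_mem hx hy
    | mul x y _ _ hx hy => rw [map_mul]; exact mul_mem hx hy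
    | inv x _ hx => rw [map_inv₀]; exact inv_mem hx
  obtain ⟨n, ζ, hn, hζ, hx⟩ := hM x
  have h2 : ∀ y : AlgebraicClosure M, y ∈ IntermediateField.adjoin K {ζ} → J y ∈ NF Ω (minpoly ℚ α) := by
    intro y hy
    induction hy using IntermediateField.adjoin_induction with
    | mem y hy =>
      rw [Set.mem_singleton_iff.1 hy]
      refine nf_unity Ω _ hn ?_
      rw [← map_pow, hζ, map_one]
    | algebraMap y =>
      rw [IsScalarTower.algebraMap_apply K M (AlgebraicClosure M), hJ]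
      exact hK y
    | add x y _ _ hx hy => rw [map_add]; exact add_mem hx hy
    | mul x y _ _ hx hy => rw [map_mul]; exact mul_mem hx hy
    | inv x _ hx => rw [map_inv₀]; exact inv_mem hx
  rw [← hJ]
  exact h2 _ hx

end Pool.Agent.Helper79.FE
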