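import Pool.Agent.Helper79.FE.Val
import Pool.Graph.R_pool_sql_team_seeded_620a6dc7.Helper537_Sym.Symb
import Pool.Agent.Helper79.BT.Alg

set_option autoImplicit false

/-!
# Restriction of discrete valuations to a subfield, and functoriality of the unramified part
-/

namespace Pool.Agent.Helper79.FE

open scoped WithZero
open Pool.Agent.TH826.MK (KQ symb KQ.map KQ.map_symb unitPart exists_ord)

section

variable {L : Type*} [Field L]

theorem le_exp_log {a b : ℤᵐ⁰} (ha : a ≠ 0) (hb : b ≠ 0) : a ≤ b ↔ WithZero.log a ≤ WithZero.log b := by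
  constructor
  · intro h
    exact (WithZero.log_le_log ha hb).2 h
  · intro h
    exact (WithZero.log_le_log ha hb).1 h

/-- a nontrivial valuation with values in `ℤᵐ⁰` can be normalized -/
theorem exists_norm (v : Valuation L ℤᵐ⁰) (hv : ∃ a : L, a ≠ 0 ∧ v a ≠ 1) :
    ∃ w : Valuation L ℤᵐ⁰, Function.Surjective w ∧ ∀ a : L, w a = 1 ↔ v a = 1 := by
  classical
  -- the subgroup of orders
  let o : Additive Lˣ →+ ℤ := AddMonoidHom.mk' (fun a => WithZero.log (v (a.toMul : L))) (by
    intro a b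
    rw [toMul_add, Units.val_mul, map_mul]
    exact WithZero.log_mul ((Valuation.ne_zero_iff v).2 a.toMul.ne_zero) ((Valuation.ne_zero_iff v).2 b.toMul.ne_zero))
  obtain ⟨e, he⟩ := Int.subgroup_cyclic o.range
  rw [← AddSubgroup.zmultiples_eq_closure] at he
  have hne : ∀ a : L, a ≠ 0 → v a ≠ 0 := fun a ha => (Valuation.ne_zero_iff v).2 ha
  have hmem : ∀ a : L, a ≠ 0 → ∃ k : ℤ, WithZero.log (v a) = k * e := by
    intro a ha
    have h1 : o (Additive.ofMul (Units.mk0 a ha)) ∈ o.range := ⟨_, rfl⟩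
    rw [he, AddSubgroup.mem_zmultiples_iff] at h1
    obtain ⟨k, hk⟩ := h1
    exact ⟨k, by rw [← smul_eq_mul, hk]; rfl⟩
  have he0 : e ≠ 0 := by
    rintro rfl
    obtain ⟨a, ha, ha1⟩ := hv
    obtain ⟨k, hk⟩ := hmem a ha
    rw [mul_zero] at hk
    apply ha1
    rw [← WithZero.exp_log (hne a ha), hk, WithZero.exp_zero]
  obtain ⟨e, hepos, hE⟩ : ∃ e : ℤ, 0 < e ∧ (∀ a : L, a ≠ 0 → ∃ k : ℤ, WithZero.log (v a) = k * e) ∧
      ∃ a : L, a ≠ 0 ∧ WithZero.log (v a) = e := by
    have hgen : ∃ a : L, a ≠ 0 ∧ WithZero.log (v a) = e := by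
      have h1 : e ∈ o.range := by rw [he]; exact AddSubgroup.mem_zmultiples e
      obtain ⟨a, ha⟩ := h1
      exact ⟨(a.toMul : L), a.toMul.ne_zero, ha⟩
    rcases lt_or_gt_of_ne he0 with h | h
    · refine ⟨-e, by omega, fun a ha => ?_, ?_⟩
      · obtain ⟨k, hk⟩ := hmem a ha
        exact ⟨-k, by rw [hk]; ring⟩
      · obtain ⟨a, ha, h1⟩ := hgen
        refine ⟨a⁻¹, inv_ne_zero ha, ?_⟩
        rw [map_inv₀, WithZero.log_inv, h1]
    · exact ⟨e, h, hmem, hgen⟩
  obtain ⟨hdiv, a₀, ha₀, hla₀⟩ := hE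
  let w : Valuation L ℤᵐ⁰ :=
    { toFun := fun a => if a = 0 then 0 else WithZero.exp (WithZero.log (v a) / e)
      map_zero' := by simp
      map_one' := by simp
      map_mul' := by
        intro a b
        by_cases ha : a = 0
        · simp [ha]
        by_cases hb : b = 0
        · simp [hb]
        simp only [ha, hb, mul_eq_zero, or_self, if_false]
        obtain ⟨k, hk⟩ := hdiv a ha
        obtain ⟨l, hl⟩ := hdiv b hb
        rw [map_mul, WithZero.log_mul (hne a ha) (hne b hb), hk, hl, ← WithZero.exp_add, ← add_mul,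
          Int.mul_ediv_cancel _ hepos.ne', Int.mul_ediv_cancel _ hepos.ne', Int.mul_ediv_cancel _ hepos.ne']
      map_add_le_max' := by
        intro a b
        by_cases ha : a = 0
        · simp [ha]
        by_cases hb : b = 0
        · simp [hb]
        by_cases hab : a + b = 0
        · simp [hab]
        simp only [ha, hb, hab, if_false]
        rcases le_max_iff.1 (v.map_add a b) with h | h
        · refine le_max_of_le_left ?_
          rw [WithZero.exp_le_exp]
          exact Int.ediv_le_ediv hepos ((le_exp_log (hne _ hab) (hne _ ha)).1 h)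
        · refine le_max_of_le_right ?_
          rw [WithZero.exp_le_exp]
          exact Int.ediv_le_ediv hepos ((le_exp_log (hne _ hab) (hne _ hb)).1 h) }
  have hw : ∀ a : L, a ≠ 0 → w a = WithZero.exp (WithZero.log (v a) / e) := fun a ha => if_neg ha
  refine ⟨w, ?_, ?_⟩
  · intro x
    by_cases hx : x = 0
    · exact ⟨0, by rw [map_zero, hx]⟩
    · refine ⟨a₀ ^ (WithZero.log x), ?_⟩
      rw [hw _ (zpow_ne_zero _ ha₀), map_zpow₀, WithZero.log_zpow, hla₀, smul_eq_mul,
        Int.mul_ediv_cancel _ hepos.ne', WithZero.exp_log hx]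
  · intro a
    by_cases ha : a = 0
    · rw [ha, map_zero, map_zero]
    · rw [hw a ha, ← WithZero.exp_zero, WithZero.exp_inj]
      obtain ⟨k, hk⟩ := hdiv a ha
      constructor
      · intro h
        rw [hk, Int.mul_ediv_cancel _ hepos.ne'] at h
        rw [← WithZero.exp_log (hne a ha), hk, h, zero_mul]
      · intro h
        rw [h, WithZero.log_exp, Int.zero_ediv]

end

/-- functoriality of the unramified part -/
theorem unram_map {M N L E : Type*} [Field M] [Field N] [Field L] [Field E] [Algebra M L] [Algebra N E]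
    (ι : L →+* E) (hι : ∀ x : M, ∃ y : N, ι (algebraMap M L x) = algebraMap N E y) {z : KQ L 2}
    (hz : z ∈ ⨅ v ∈ VN M L, unitPart v 2) : KQ.map 2 ι z ∈ ⨅ v ∈ VN N E, unitPart v 2 := by
  classical
  rw [Submodule.mem_iInf]
  intro v
  rw [Submodule.mem_iInf]
  intro hv
  have hsy : ∀ a : Fin 2 → Lˣ, (∀ i, v (ι (a i)) = 1) → KQ.map 2 ι (symb a) ∈ unitPart v 2 := by
    intro a ha
    rw [KQ.map_symb]
    exact Submodule.subset_span ⟨_, ha, rfl⟩
  by_cases htriv : ∃ a : L, a ≠ 0 ∧ v.comap ι a ≠ 1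
  · obtain ⟨w, hw1, hw2⟩ := exists_norm (v.comap ι) htriv
    have hwN : w ∈ VN M L := by
      refine ⟨hw1, fun x hx => ?_⟩
      rw [hw2, Valuation.comap_apply]
      obtain ⟨y, hy⟩ := hι x
      rw [hy]
      refine hv.2 y ?_
      rintro rfl
      rw [map_zero, map_eq_zero, map_eq_zero] at hy
      exact hx hy
    have h1 : z ∈ unitPart w 2 := by
      have := (Submodule.mem_iInf _).1 hz w
      exact (Submodule.mem_iInf _).1 this hwN
    have h2 : unitPart w 2 ≤ (unitPart v 2).comap (KQ.map 2 ι) := by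
      refine Submodule.span_le.2 ?_
      rintro _ ⟨a, ha, rfl⟩
      exact hsy a fun i => (hw2 _).1 (ha i)
    exact h2 h1
  · push Not at htriv
    have h2 : (⊤ : Submodule ℚ ((Fin 2 → Lˣ) →₀ ℚ)) ≤ (unitPart v 2).comap ((KQ.map 2 ι).comp KQ.mkQ) := by
      rw [← Finsupp.iSup_lsingle_range]
      refine iSup_le fun a => ?_
      rintro _ ⟨q, rfl⟩
      show KQ.map 2 ι (KQ.mkQ (Finsupp.single a q)) ∈ unitPart v 2
      have e : Finsupp.single a q = q • Finsupp.single a (1 : ℚ) := by simp
      rw [e, map_smul, map_smul]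
      exact Submodule.smul_mem _ _ (hsy a fun i => htriv _ (a i).ne_zero)
    obtain ⟨y, hy⟩ := Submodule.mkQ_surjective _ z
    have hy' : KQ.mkQ y = z := hy
    rw [← hy']
    exact h2 (Submodule.mem_top)

end Pool.Agent.Helper79.FE
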