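import Pool.Agent.Helper79.FE.FinN
import Pool.Agent.Helper79.FE.NF
import Pool.Agent.Helper79.FE.Rst

set_option autoImplicit false

/-!
# Descent to function fields over subfields of `K(μ_∞)`
-/

namespace Pool.Agent.Helper79.FE

open scoped WithZero
open Polynomial IntermediateField Module
open Pool.Agent.TH826.MK (KQ symb KQ.map KQ.map_symb unitPart)
open Pool.Agent.Helper537_Sym

universe u

/-- every transcendental element is a power of an element which is not a proper power -/
theorem exists_max_root {N E : Type*} [Field N] [CharZero N] [Field E] [Algebra N E] (f : E)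
    (hf : Transcendental N f) [FiniteDimensional N⟮f⟯ E] :
    ∃ (h : E) (m : ℕ), 0 < m ∧ h ^ m = f ∧ ¬ ∃ (r : E) (q : ℕ), 2 ≤ q ∧ r ^ q = h := by
  classical
  obtain ⟨v, hv, hvf⟩ := exists_zero f hf
  have hf0 : f ≠ 0 := by
    rintro rfl
    exact hf isAlgebraic_zero
  have hvf0 : v f ≠ 0 := (Valuation.ne_zero_iff v).2 hf0
  set k := WithZero.log (v f) with hk
  have hk0 : k < 0 := by
    rw [← WithZero.exp_log hvf0, ← WithZero.exp_zero, WithZero.exp_lt_exp] at hvf
    exact hvf
  let P : ℕ → Prop := fun m => 0 < m ∧ ∃ h : E, h ^ m = f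
  have hbd : ∀ m, P m → m ≤ k.natAbs := by
    rintro m ⟨hm, h, hh⟩
    have h1 : (m : ℤ) * WithZero.log (v h) = k := by
      rw [hk, ← hh, map_pow, WithZero.log_pow, nsmul_eq_mul]
    have h2 : (m : ℤ) ∣ k := ⟨_, h1.symm⟩
    have h3 := Int.natAbs_dvd_natAbs.2 h2
    rw [Int.natAbs_natCast] at h3
    exact Nat.le_of_dvd (Int.natAbs_pos.2 hk0.ne) h3
  have hP1 : P 1 := ⟨one_pos, f, pow_one f⟩
  have hm := Nat.findGreatest_spec (P := P) (hbd 1 hP1) hP1
  obtain ⟨hm0, h, hh⟩ := hm
  refine ⟨h, _, hm0, hh, ?_⟩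
  rintro ⟨r, q, hq, hr⟩
  have h1 : P (q * Nat.findGreatest P k.natAbs) :=
    ⟨Nat.mul_pos (by omega) hm0, r, by rw [pow_mul, hr, hh]⟩
  have h2 := Nat.le_findGreatest (hbd _ h1) h1
  nlinarith

theorem finite_desc {K : Type*} {M : Type*} {L : Type u} [Field K] [NumberField K] [Field M] [Algebra K M]
    (hM : ∀ x : M, ∃ (n : ℕ) (ζ : AlgebraicClosure M), 0 < n ∧ ζ ^ n = 1 ∧
      algebraMap M (AlgebraicClosure M) x ∈ IntermediateField.adjoin K {ζ})
    [Field L] [Algebra M L] (f : Lˣ) (hf : Transcendental M (f : L)) [FiniteDimensional M⟮(f : L)⟯ L] :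
    FiniteDimensional ℚ ↥(Submodule.span ℚ (Set.range fun u : Lˣ => sy f u) ⊓
      ⨅ v ∈ VN M L, unitPart v 2) := by
  classical
  have : CharZero M := charZero_of_injective_algebraMap (algebraMap K M).injective
  have : CharZero L := charZero_of_injective_algebraMap (algebraMap M L).injective
  obtain ⟨α, hα⟩ := Field.exists_primitive_element ℚ K
  let Ω := AlgebraicClosure L
  let N := NF Ω (minpoly ℚ α)
  have hN : CycF N := nf_cyc Ω _
  let E : IntermediateField L Ω := IntermediateField.adjoin L (N : Set Ω)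
  have hNE : ∀ x : N, (x : Ω) ∈ E := fun x => IntermediateField.subset_adjoin _ _ x.2
  let iN : N →+* E := (algebraMap N Ω).codRestrict E.toSubfield hNE
  let _ : Algebra N E := iN.toAlgebra
  let _ : Algebra N Ω := inferInstance
  have tower : IsScalarTower N E Ω := IsScalarTower.of_algebraMap_eq fun x => rfl
  have halgN : Algebra.IsAlgebraic ℚ N := hN.normal.toIsAlgebraic
  have hMN : ∀ x : M, algebraMap L Ω (algebraMap M L x) ∈ N := fun x =>
    img_nf hM ((algebraMap L Ω).comp (algebraMap M L)) α hα x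
  have hι : ∀ x : M, ∃ y : N, algebraMap L E (algebraMap M L x) = algebraMap N E y := fun x =>
    ⟨⟨_, hMN x⟩, Subtype.ext rfl⟩
  set F : E := algebraMap L E (f : L) with hF
  -- transcendence
  have hFtr : Transcendental N F := by
    intro halg
    have h1 : IsAlgebraic N (algebraMap L Ω (f : L)) := halg.algebraMap (A := Ω)
    have h2 : IsAlgebraic ℚ (algebraMap L Ω (f : L)) := IsAlgebraic.restrictScalars ℚ h1
    have h3 : IsAlgebraic ℚ (f : L) := (isAlgebraic_algebraMap_iff (algebraMap L Ω).injective).1 h2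
    have h4 : IsAlgebraic M (f : L) := h3.tower_top M
    exact hf h4
  -- finiteness
  let b := Module.finBasis M⟮(f : L)⟯ L
  have hmemL : ∀ x : L, x ∈ M⟮(f : L)⟯ → algebraMap L E x ∈ N⟮F⟯ := by
    intro x hx
    induction hx using IntermediateField.adjoin_induction with
    | mem y hy =>
      rw [Set.mem_singleton_iff.1 hy]
      exact IntermediateField.mem_adjoin_simple_self N F
    | algebraMap y =>
      obtain ⟨z, hz⟩ := hι y
      rw [hz]
      exact (N⟮F⟯).algebraMap_mem z
    | add x y _ _ hx hy => rw [map_add]; exact add_mem hx hy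
    | mul x y _ _ hx hy => rw [map_mul]; exact mul_mem hx hy
    | inv x _ hx => rw [map_inv₀]; exact inv_mem hx
  have hfin : FiniteDimensional N⟮F⟯ E := by
    let ρ : M⟮(f : L)⟯ →+* N⟮F⟯ :=
      ((algebraMap L E).comp (algebraMap M⟮(f : L)⟯ L)).codRestrict (N⟮F⟯).toSubfield fun x => hmemL _ x.2
    have hint : ∀ i, IsIntegral N⟮F⟯ (algebraMap L E (b i)) := fun i =>
      IsIntegral.map_of_comp_eq ρ (algebraMap L E) rfl (Algebra.IsIntegral.isIntegral (b i))
    have : Finite ↥(Set.range fun i => algebraMap L E (b i)) := inferInstance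
    have hfd : FiniteDimensional N⟮F⟯ (IntermediateField.adjoin N⟮F⟯ (Set.range fun i => algebraMap L E (b i))) :=
      IntermediateField.finiteDimensional_adjoin fun x hx => by
        obtain ⟨i, rfl⟩ := hx
        exact hint i
    set A := IntermediateField.adjoin N⟮F⟯ (Set.range fun i => algebraMap L E (b i)) with hA
    have hAL : ∀ x : L, algebraMap L E x ∈ A := by
      intro x
      rw [← b.sum_repr x, map_sum]
      refine sum_mem fun i _ => ?_
      rw [Algebra.smul_def, map_mul]
      refine mul_mem ?_ (IntermediateField.subset_adjoin _ _ ⟨i, rfl⟩)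
      exact A.algebraMap_mem ⟨_, hmemL _ (b.repr x i).2⟩
    have htop : A = ⊤ := by
      rw [eq_top_iff]
      rintro ⟨x, hx⟩ _
      have key : ∀ x : Ω, x ∈ IntermediateField.adjoin L (N : Set Ω) → ∃ h : x ∈ E, (⟨x, h⟩ : E) ∈ A := by
        intro x hx
        induction hx using IntermediateField.adjoin_induction with
        | mem y hy =>
          refine ⟨hNE ⟨y, hy⟩, ?_⟩
          have h1 : (⟨y, hNE ⟨y, hy⟩⟩ : E) = algebraMap N⟮F⟯ E (algebraMap N N⟮F⟯ ⟨y, hy⟩) := rfl
          rw [h1]
          exact A.algebraMap_mem _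
        | algebraMap y => exact ⟨E.algebraMap_mem y, hAL y⟩
        | add x y _ _ hx hy =>
          obtain ⟨hx, h1⟩ := hx
          obtain ⟨hy, h2⟩ := hy
          exact ⟨add_mem hx hy, add_mem h1 h2⟩
        | mul x y _ _ hx hy =>
          obtain ⟨hx, h1⟩ := hx
          obtain ⟨hy, h2⟩ := hy
          exact ⟨mul_mem hx hy, mul_mem h1 h2⟩
        | inv x _ hx =>
          obtain ⟨hx, h1⟩ := hx
          exact ⟨inv_mem hx, inv_mem h1⟩
      exact (key x hx).2
    rw [htop] at hfd
    exact LinearEquiv.finiteDimensional (IntermediateField.topEquiv (F := N⟮F⟯) (E := E)).toLinearEquiv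
  -- the root
  obtain ⟨h, m, hm, hhm, hpow⟩ := exists_max_root F hFtr
  have hh0 : h ≠ 0 := by
    rintro rfl
    rw [zero_pow hm.ne'] at hhm
    exact hFtr (hhm ▸ isAlgebraic_zero)
  have hhtr : Transcendental N h := by
    intro halg
    apply hFtr
    rw [← hhm]
    exact halg.pow m
  let hu : Eˣ := Units.mk0 h hh0
  have hfinh : FiniteDimensional N⟮(hu : E)⟯ E := fin_adj F h hFtr hhtr
  have hEfin := fin_N hN hu hhtr hpow
  -- the map
  let φ : KQ L 2 →ₗ[ℚ] KQ E 2 := KQ.map 2 (algebraMap L E)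
  have halgE : Algebra.IsAlgebraic L E := inferInstance
  have hφinj : Function.Injective φ := by
    rw [injective_iff_map_eq_zero]
    exact fun x hx => BT.inj_alg x hx
  have hmaps : ∀ z ∈ Submodule.span ℚ (Set.range fun u : Lˣ => sy f u) ⊓ ⨅ v ∈ VN M L, unitPart v 2,
      φ z ∈ Submodule.span ℚ {z | ∃ u : Eˣ, sy hu u ∈ (⨅ v ∈ VN N E, unitPart v 2) ∧ z = sy hu u} := by
    rintro z ⟨hz1, hz2⟩
    have h1 : φ z ∈ ⨅ v ∈ VN N E, unitPart v 2 := unram_map (algebraMap L E) hι hz2
    obtain ⟨q, u, rfl⟩ := span_sy f z hz1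
    have h2 : φ (q • sy f u) = (q * m) • sy hu (Units.map (algebraMap L E : L →* E) u) := by
      rw [map_smul]
      have h3 : φ (sy f u) = sy (Units.map (algebraMap L E : L →* E) f) (Units.map (algebraMap L E : L →* E) u) :=
        map_sy _ _ _
      have h4 : Units.map (algebraMap L E : L →* E) f = hu ^ m := by
        apply Units.ext
        rw [Units.val_pow_eq_pow_val]
        exact hhm.symm
      rw [h3, h4, sy_pow_left, smul_smul]
    rw [h2] at h1 ⊢
    refine span_inf hu _ ⟨Submodule.smul_mem _ _ (Submodule.subset_span ⟨_, rfl⟩), h1⟩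
  let ψ : ↥(Submodule.span ℚ (Set.range fun u : Lˣ => sy f u) ⊓ ⨅ v ∈ VN M L, unitPart v 2) →ₗ[ℚ]
      ↥(Submodule.span ℚ {z | ∃ u : Eˣ, sy hu u ∈ (⨅ v ∈ VN N E, unitPart v 2) ∧ z = sy hu u}) :=
    φ.restrict hmaps
  refine FiniteDimensional.of_injective ψ ?_
  intro x y hxy
  have h1 : φ x = φ y := congrArg Subtype.val hxy
  exact Subtype.ext (hφinj h1)

end Pool.Agent.Helper79.FE
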