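import Pool.Agent.Helper79.FE.DZb

set_option autoImplicit false

/-!
# Irreducibility over torsion points

Let `N` be a field generated by roots of unity over a number field, containing all roots of unity and normal
over `ℚ`. If a monic polynomial `G(t, Y)` over `N[t]` with integral coefficients is reducible at infinitely many
roots of unity `t = η`, then `G(T ^ a, Y)` is reducible over `N[T, T⁻¹]` for some `a > 0`.
(Over number fields this is a theorem of Dvornicich and Zannier; the proof uses Loxton's theorem and torsion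
points on subvarieties of tori.)
-/

namespace Pool.Agent.Helper79.FE

open Polynomial Module Finset
open scoped LaurentPolynomial

universe u

section pol

variable {R : Type*} [CommRing R] {n : ℕ}

/-- the monic polynomial of degree `k ≤ n` with given coefficients -/
noncomputable def pol (k : ℕ) (a : Fin n → R) : R[X] :=
  X ^ k + ∑ i : Fin n, C (if (i : ℕ) < k then a i else 0) * X ^ (i : ℕ)

theorem pol_map {R' : Type*} [CommRing R'] (f : R →+* R') (k : ℕ) (a : Fin n → R) :
    (pol k a).map f = pol k fun i => f (a i) := by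
  unfold pol
  rw [Polynomial.map_add, Polynomial.map_pow, map_X, Polynomial.map_sum]
  congr 1
  refine Finset.sum_congr rfl fun i _ => ?_
  rw [Polynomial.map_mul, map_C, Polynomial.map_pow, map_X]
  congr 2
  split_ifs <;> simp

theorem pol_deg (k : ℕ) (a : Fin n → R) :
    (∑ i : Fin n, C (if (i : ℕ) < k then a i else 0) * X ^ (i : ℕ)).degree < ((k : ℕ) : WithBot ℕ) := by
  refine (degree_sum_le _ _).trans_lt ?_
  refine (Finset.sup_lt_iff (WithBot.bot_lt_coe k)).2 fun i _ => ?_
  split_ifs with h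
  · exact (degree_C_mul_X_pow_le _ _).trans_lt ((Nat.cast_lt (α := WithBot ℕ)).2 h)
  · rw [C_0, zero_mul, degree_zero]
    exact WithBot.bot_lt_coe k

theorem pol_monic (k : ℕ) (a : Fin n → R) : (pol k a).Monic :=
  monic_X_pow_add (pol_deg k a)

theorem pol_natDegree [Nontrivial R] (k : ℕ) (a : Fin n → R) : (pol k a).natDegree = k := by
  have h : (pol k a).degree = k := by
    unfold pol
    rw [degree_add_eq_left_of_degree_lt (by rw [degree_X_pow]; exact pol_deg k a), degree_X_pow]
  exact natDegree_eq_of_degree_eq_some h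

theorem pol_coeff (k : ℕ) (a : Fin n → R) (j : ℕ) : (pol k a).coeff j =
    (if j = k then 1 else 0) + if h : j < n then (if j < k then a ⟨j, h⟩ else 0) else 0 := by
  unfold pol
  rw [coeff_add, coeff_X_pow, finsetSum_coeff]
  congr 1
  simp only [coeff_C_mul_X_pow]
  by_cases h : j < n
  · rw [dif_pos h, Finset.sum_eq_single (⟨j, h⟩ : Fin n)]
    · simp
    · intro i _ hi
      rw [if_neg]
      intro h2
      exact hi (Fin.ext h2.symm)
    · intro h2
      exact absurd (Finset.mem_univ _) h2
  · rw [dif_neg h]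
    refine Finset.sum_eq_zero fun i _ => ?_
    rw [if_neg]
    intro h2
    exact h (h2 ▸ i.2)

theorem pol_of (k : ℕ) (hk : k ≤ n) (q : R[X]) (hq : q.Monic) (hqk : q.natDegree = k) :
    pol k (fun i : Fin n => q.coeff i) = q := by
  ext j
  rw [pol_coeff]
  rcases lt_trichotomy j k with h | h | h
  · rw [if_neg h.ne, dif_pos (by omega), if_pos h, zero_add]
  · subst h
    rw [if_pos rfl]
    have h1 : q.coeff j = 1 := by
      rw [← hqk]
      exact hq
    rw [h1]
    split_ifs <;> simp_all
  · rw [if_neg (by omega), coeff_eq_zero_of_natDegree_lt (by omega)]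
    split_ifs
    · omega
    · simp
    · simp

end pol

variable {N : Type u} [Field N] [CharZero N]

section sys

variable {n m : ℕ} (θ : Fin m → ℂ)

/-- the index set of the roots of unity -/
abbrev II (n m : ℕ) : Type := Bool × Fin n × Fin m

/-- the coefficients -/
def thW (W : Finset (II n m)) (p : II n m) : ℂ := if p ∈ W then θ p.2.2 else 0

/-- the two factors at a point -/
noncomputable def PP (W : Finset (II n m)) (b : Bool) (k : ℕ) (z : Option (II n m) → ℂ) : ℂ[X] :=
  pol k fun i : Fin n => ∑ l : Fin m, thW θ W (b, i, l) * z (some (b, i, l))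

/-- the equations -/
noncomputable def FF (S : N →+* ℂ) (G : N[X][X]) (W : Finset (II n m)) (k : ℕ) :
    Fin (n + 1) → MvPolynomial (Option (II n m)) ℂ := fun j =>
  ((pol k fun i : Fin n => ∑ l : Fin m, MvPolynomial.C (thW θ W (true, i, l)) *
      MvPolynomial.X (some (true, i, l))) *
    (pol (n - k) fun i : Fin n => ∑ l : Fin m, MvPolynomial.C (thW θ W (false, i, l)) *
      MvPolynomial.X (some (false, i, l))) -
    G.map (eval₂RingHom ((MvPolynomial.C : ℂ →+* MvPolynomial (Option (II n m)) ℂ).comp S)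
      (MvPolynomial.X none))).coeff j

omit [CharZero N] in
theorem ff_eval (S : N →+* ℂ) (G : N[X][X]) (W : Finset (II n m)) (k : ℕ) (z : Option (II n m) → ℂ)
    (j : Fin (n + 1)) : MvPolynomial.eval z (FF θ S G W k j) =
      (PP θ W true k z * PP θ W false (n - k) z - G.map (eval₂RingHom S (z none))).coeff j := by
  unfold FF
  rw [← Polynomial.coeff_map, Polynomial.map_sub, Polynomial.map_mul, pol_map, pol_map, Polynomial.map_map]
  congr 3
  · unfold PP
    congr 2
    funext i
    simp [map_sum]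
  · unfold PP
    congr 1
    funext i
    simp [map_sum]
  · refine Polynomial.ringHom_ext (fun a => ?_) ?_
    · simp
    · simp

omit [CharZero N] in
theorem ff_iff (S : N →+* ℂ) (G : N[X][X]) (hG : G.Monic) (hGn : G.natDegree = n) (W : Finset (II n m)) (k : ℕ)
    (hk : k ≤ n) (z : Option (II n m) → ℂ) : (∀ j, MvPolynomial.eval z (FF θ S G W k j) = 0) ↔
      PP θ W true k z * PP θ W false (n - k) z = G.map (eval₂RingHom S (z none)) := by
  constructor
  · intro h
    rw [← sub_eq_zero]
    ext j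
    rw [coeff_zero]
    by_cases hj : j ≤ n
    · have := h ⟨j, by omega⟩
      rwa [ff_eval] at this
    · rw [coeff_sub, coeff_eq_zero_of_natDegree_lt, coeff_eq_zero_of_natDegree_lt, sub_zero]
      · rw [hG.natDegree_map, hGn]
        omega
      · unfold PP
        rw [(pol_monic _ _).natDegree_mul (pol_monic _ _), pol_natDegree, pol_natDegree]
        omega
  · intro h j
    rw [ff_eval, h, sub_self, coeff_zero]

end sys

omit [CharZero N] in
theorem lift_int (p : N[X]) (hp : p.Monic) (h : ∀ i, IsIntegral ℤ (p.coeff i)) (q : N[X]) (hq : q.Monic)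
    (hqp : q ∣ p) (i : ℕ) : IsIntegral ℤ (q.coeff i) := by
  have h1 : p ∈ lifts (algebraMap (integralClosure ℤ N) N) := by
    rw [lifts_iff_coeff_lifts]
    intro j
    exact ⟨⟨p.coeff j, h j⟩, rfl⟩
  obtain ⟨p₀, hp₀, -, hm⟩ := lifts_and_natDegree_eq_and_monic h1 hp
  have h2 := isIntegral_coeff_of_dvd p₀ q hm hq (by rw [hp₀]; exact hqp) i
  exact isIntegral_trans (R := ℤ) _ h2

theorem exists_point (hN : CycF N) (S : N →+* ℂ) (G : N[X][X]) (hG : G.Monic) (n : ℕ) (hGn : G.natDegree = n)
    (hn : 0 < n) (hint : ∀ i j, IsIntegral ℤ ((G.coeff i).coeff j)) :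
    ∃ (m : ℕ) (θ : Fin m → ℂ), (∀ i, ∃ c : N, S c = θ i) ∧
      ∀ η : N, Rt η → ¬ Irreducible (G.map (evalRingHom η)) →
        ∃ (W : Finset (II n m)) (k : ℕ) (z : Option (II n m) → ℂ), 0 < k ∧ k < n ∧ (∀ j, Rt (z j)) ∧
          z none = S η ∧ PP θ W true k z * PP θ W false (n - k) z = G.map (eval₂RingHom S (z none)) := by
  classical
  have halg : Algebra.IsAlgebraic ℚ N := hN.normal.toIsAlgebraic
  choose b hb using fun x : N => bdd_conj x
  have hb0 : ∀ x, 0 ≤ b x := fun x => (norm_nonneg _).trans (hb x S)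
  obtain ⟨c, hc⟩ : ∃ c : ℝ, ∀ τ : N →+* ℂ, ∀ η, Rt η → ∀ i, ‖τ ((G.map (evalRingHom η)).coeff i)‖ ≤ c := by
    refine ⟨∑ i ∈ range (n + 1), ∑ j ∈ range ((G.coeff i).natDegree + 1), b ((G.coeff i).coeff j),
      fun τ η hη i => ?_⟩
    by_cases hi : i ≤ n
    · refine le_trans ?_ (Finset.single_le_sum (f := fun i => ∑ j ∈ range ((G.coeff i).natDegree + 1),
        b ((G.coeff i).coeff j)) (fun i _ => Finset.sum_nonneg fun j _ => hb0 _)
        (Finset.mem_range.2 (Nat.lt_succ_of_le hi)))
      rw [coeff_map, coe_evalRingHom, eval_eq_sum_range, map_sum]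
      refine (norm_sum_le _ _).trans (Finset.sum_le_sum fun j _ => ?_)
      rw [map_mul, map_pow, norm_mul, norm_pow]
      have h1 : ‖τ η‖ = 1 := by
        obtain ⟨r, hr, h⟩ := rt_map τ hη
        exact Complex.norm_eq_one_of_pow_eq_one h hr.ne'
      rw [h1, one_pow, mul_one]
      exact hb _ τ
    · rw [coeff_map, coeff_eq_zero_of_natDegree_lt (by omega), map_zero, map_zero, norm_zero]
      exact Finset.sum_nonneg fun i _ => Finset.sum_nonneg fun j _ => hb0 _
  obtain ⟨B, hB⟩ := coef_bound n c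
  obtain ⟨m, θ, hθ, hL⟩ := loxN hN S B
  refine ⟨m, θ, hθ, fun η hη hirr => ?_⟩
  set p := G.map (evalRingHom η) with hp
  have hpm : p.Monic := hG.map _
  have hpn : p.natDegree = n := by rw [hp, hG.natDegree_map, hGn]
  have hp1 : p ≠ 1 := by
    intro h
    rw [h, natDegree_one] at hpn
    omega
  rw [hpm.irreducible_iff_natDegree] at hirr
  push Not at hirr
  obtain ⟨f, g, hf, hg, hfg, hf0, hg0⟩ := hirr hp1
  have hdeg : f.natDegree + g.natDegree = n := by
    rw [← hf.natDegree_mul hg, hfg, hpn]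
  have hpint : ∀ i, IsIntegral ℤ (p.coeff i) := by
    intro i
    rw [hp, coeff_map, coe_evalRingHom, eval_eq_sum_range]
    refine IsIntegral.sum _ fun j _ => (hint i j).mul (IsIntegral.pow ?_ j)
    obtain ⟨r, hr, h⟩ := hη
    exact IsIntegral.of_pow hr (h ▸ isIntegral_one)
  have key : ∀ q : N[X], q.Monic → q ∣ p → ∀ i, ∃ z : Fin m → ℂ, (∀ l, RU (z l)) ∧
      S (q.coeff i) = ∑ l, θ l * z l := by
    intro q hq hqp i
    refine hL _ (lift_int p hpm hpint q hq hqp i) fun τ => ?_
    have := hB (p.map τ) (q.map τ) (hpm.map τ) (by rw [hpm.natDegree_map, hpn]) (fun i => by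
      rw [coeff_map]
      exact hc τ η hη i) (hq.map τ) (Polynomial.map_dvd τ hqp) i
    rwa [coeff_map] at this
  choose zf hzf hzf2 using key f hf ⟨g, hfg.symm⟩
  choose zg hzg hzg2 using key g hg ⟨f, by rw [mul_comm, hfg]⟩
  let Z : II n m → ℂ := fun p => if p.1 = true then zf p.2.1 p.2.2 else zg p.2.1 p.2.2
  have hZ : ∀ p, RU (Z p) := by
    intro p
    simp only [Z]
    split_ifs
    · exact hzf _ _
    · exact hzg _ _
  let W : Finset (II n m) := univ.filter fun p => Z p ≠ 0
  let z : Option (II n m) → ℂ := fun o => match o with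
    | none => S η
    | some p => if Z p = 0 then 1 else Z p
  have hz : ∀ p : II n m, thW θ W p * z (some p) = θ p.2.2 * Z p := by
    intro p
    by_cases h : Z p = 0
    · have hW : p ∉ W := by simp [W, h]
      rw [thW, if_neg hW, h]
      ring
    · have hW : p ∈ W := by simp [W, h]
      rw [thW, if_pos hW]
      simp only [z, if_neg h]
  refine ⟨W, f.natDegree, z, by omega, by omega, ?_, rfl, ?_⟩
  · rintro (_ | p)
    · exact rt_map S hη
    · by_cases h : Z p = 0
      · simp only [z, if_pos h]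
        exact ⟨1, one_pos, one_pow _⟩
      · simp only [z, if_neg h]
        exact (hZ p).resolve_left h
  · have hf' : PP θ W true f.natDegree z = f.map S := by
      rw [← pol_of (n := n) f.natDegree (by omega) (f.map S) (hf.map S) (by rw [hf.natDegree_map])]
      unfold PP
      congr 1
      funext i
      rw [coeff_map, hzf2]
      exact Finset.sum_congr rfl fun l _ => hz _
    have hg' : PP θ W false (n - f.natDegree) z = g.map S := by
      have e : n - f.natDegree = g.natDegree := by omega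
      rw [e, ← pol_of (n := n) g.natDegree (by omega) (g.map S) (hg.map S) (by rw [hg.natDegree_map])]
      unfold PP
      congr 1
      funext i
      rw [coeff_map, hzg2]
      exact Finset.sum_congr rfl fun l _ => hz _
    rw [hf', hg', ← Polynomial.map_mul, hfg, hp, Polynomial.map_map]
    congr 1
    refine Polynomial.ringHom_ext (fun a => ?_) ?_
    · simp
    · simp [z]

/-- the substitution `t = T ^ a` -/
noncomputable def sub (N : Type*) [Field N] (a : ℕ) : N[X] →+* N[T;T⁻¹] :=
  eval₂RingHom LaurentPolynomial.C (LaurentPolynomial.T (a : ℤ))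

theorem dz (hN : CycF N) (G : N[X][X]) (hG : G.Monic) (hn : 0 < G.natDegree)
    (hint : ∀ i j, IsIntegral ℤ ((G.coeff i).coeff j))
    (hinf : {η : N | Rt η ∧ ¬ Irreducible (G.map (evalRingHom η))}.Infinite) :
    ∃ a : ℕ, 0 < a ∧ ∃ A B : N[T;T⁻¹][X], A.Monic ∧ B.Monic ∧ 0 < A.natDegree ∧ 0 < B.natDegree ∧
      A * B = G.map (sub N a) := by
  classical
  have halg : Algebra.IsAlgebraic ℚ N := hN.normal.toIsAlgebraic
  let S : N →+* ℂ := (IsAlgClosed.lift (R := ℚ) (S := N) (M := ℂ) : N →ₐ[ℚ] ℂ)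
  set n := G.natDegree with hGn
  obtain ⟨m, θ, hθ, H⟩ := exists_point hN S G hG n hGn.symm hn hint
  choose Z hZ HZ using fun p : Finset (II n m) × Fin n => stru (FF θ S G p.1 p.2) none
  have hZfin : (⋃ p, Z p).Finite := Set.finite_iUnion hZ
  have hZfin2 : (S ⁻¹' (⋃ p, Z p)).Finite := hZfin.preimage S.injective.injOn
  obtain ⟨η, ⟨hη, hirr⟩, hηZ⟩ := hinf.exists_notMem_finite hZfin2
  obtain ⟨W, k, z, hk0, hkn, hz, hzη, hP⟩ := H η hη hirr
  have hsol := (ff_iff θ S G hG hGn.symm W k hkn.le z).2 hP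
  obtain ⟨κ₀, hκ₀, hκ₁⟩ := HZ (W, ⟨k, hkn⟩) z hz hsol (fun h => hηZ (by
    rw [Set.mem_preimage, ← hzη]
    exact Set.mem_iUnion.2 ⟨_, h⟩))
  -- the sign
  obtain ⟨κ, a, ha, hκa, hκ⟩ : ∃ (κ : Option (II n m) → ℤ) (a : ℕ), 0 < a ∧ κ none = a ∧ ∀ t : ℂ, t ≠ 0 →
      PP θ W true k (fun j => z j * t ^ κ j) * PP θ W false (n - k) (fun j => z j * t ^ κ j) =
        G.map (eval₂RingHom S (z none * t ^ κ none)) := by
    have h1 : ∀ t : ℂ, t ≠ 0 →
        PP θ W true k (fun j => z j * t ^ κ₀ j) * PP θ W false (n - k) (fun j => z j * t ^ κ₀ j) =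
        G.map (eval₂RingHom S (z none * t ^ κ₀ none)) := fun t ht =>
      (ff_iff θ S G hG hGn.symm W k hkn.le _).1 (hκ₁ t ht)
    rcases lt_or_gt_of_ne hκ₀ with h | h
    · refine ⟨fun j => -κ₀ j, (-κ₀ none).toNat, by omega, by
        show -κ₀ none = _
        omega, fun t ht => ?_⟩
      have h2 := h1 t⁻¹ (inv_ne_zero ht)
      simp only [inv_zpow'] at h2
      exact h2
    · exact ⟨κ₀, (κ₀ none).toNat, by omega, by omega, h1⟩
  -- the twist
  obtain ⟨ω, hω, hωη⟩ := hN.rt_pow (η := η⁻¹) (by
    obtain ⟨r, hr, h⟩ := hη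
    exact ⟨r, hr, by rw [inv_pow, h, inv_one]⟩) ha
  have hSω : S ω ≠ 0 := (rt_map S hω).ne
  -- the coefficients
  have hcoef : ∀ p : II n m, ∃ c : N, S c = thW θ W p * (z (some p) * S ω ^ κ (some p)) := by
    intro p
    obtain ⟨c₁, -, h1⟩ := hN.rt_range S (hz (some p))
    obtain ⟨c₂, h2⟩ := hθ p.2.2
    unfold thW
    split_ifs
    · refine ⟨c₂ * (c₁ * ω ^ κ (some p)), ?_⟩
      rw [map_mul, map_mul, map_zpow₀, h1, h2]
    · exact ⟨0, by rw [map_zero, zero_mul]⟩
  choose c hc using hcoef
  let fac : Bool → ℕ → N[T;T⁻¹][X] := fun b k => pol k fun i : Fin n =>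
    ∑ l : Fin m, LaurentPolynomial.C (c (b, i, l)) * LaurentPolynomial.T (κ (some (b, i, l)))
  refine ⟨a, ha, fac true k, fac false (n - k), pol_monic _ _, pol_monic _ _, by
    rw [pol_natDegree]; exact hk0, by rw [pol_natDegree]; omega, ?_⟩
  have hfac : ∀ (b : Bool) (k : ℕ) (t : Nˣ),
      ((fac b k).map (LaurentPolynomial.eval₂ (RingHom.id N) t)).map S =
        PP θ W b k (fun j => z j * (S ω * S t) ^ κ j) := by
    intro b k t
    simp only [fac]
    rw [pol_map, pol_map]
    unfold PP
    congr 1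
    funext i
    rw [map_sum, map_sum]
    refine Finset.sum_congr rfl fun l _ => ?_
    beta_reduce
    rw [LaurentPolynomial.eval₂_C_mul_T, RingHom.id_apply, map_mul, hc, Units.val_zpow_eq_zpow_val, map_zpow₀,
      mul_zpow]
    ring
  refine Polynomial.ext fun i => lau_eq _ _ fun t => S.injective ?_
  have h1 := hκ (S ω * S t) (mul_ne_zero hSω ((map_ne_zero S).2 t.ne_zero))
  have h2 : z none * (S ω * S t) ^ κ none = S ((t : N) ^ a) := by
    rw [hzη, hκa, zpow_natCast, mul_pow, ← map_pow, ← map_pow, hωη, ← map_mul, ← map_mul,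
      mul_inv_cancel_left₀ hη.ne]
  rw [h2, ← hfac, ← hfac, ← Polynomial.map_mul, ← Polynomial.map_mul] at h1
  have h3 := congrArg (fun q => q.coeff i) h1
  simp only [coeff_map] at h3
  rw [h3, coeff_map]
  have h4 : (LaurentPolynomial.eval₂ (RingHom.id N) t).comp (sub N a) = evalRingHom ((t : N) ^ a) := by
    refine Polynomial.ringHom_ext (fun x => ?_) ?_
    · simp [sub]
    · simp [sub, LaurentPolynomial.eval₂_T]
  have h5 : LaurentPolynomial.eval₂ (RingHom.id N) t (sub N a (G.coeff i)) =
      evalRingHom ((t : N) ^ a) (G.coeff i) := by rw [← h4]; rfl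
  rw [h5]
  have h6 : eval₂RingHom S (S ((t : N) ^ a)) = S.comp (evalRingHom ((t : N) ^ a)) := by
    refine Polynomial.ringHom_ext (fun x => ?_) ?_
    · simp
    · simp
  rw [h6]
  rfl

end Pool.Agent.Helper79.FE
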