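import Pool.Agent.Helper79.FE.Lox
import Pool.Graph.R_pool_sql_team_seeded_63374d34.N695.CY.Struct

set_option autoImplicit false

/-!
# Preparations for the irreducibility theorem over torsion points: bounds, torsion points on systems, Laurent
polynomials
-/

namespace Pool.Agent.Helper79.FE

open Polynomial IntermediateField Module
open scoped LaurentPolynomial

/-- monic divisors of bounded monic polynomials are bounded -/
theorem coef_bound (n : ℕ) (c : ℝ) : ∃ B : ℝ, ∀ p q : ℂ[X], p.Monic → p.natDegree = n →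
    (∀ i, ‖p.coeff i‖ ≤ c) → q.Monic → q ∣ p → ∀ i, ‖q.coeff i‖ ≤ B := by
  refine ⟨(|c| + 1) ^ n * 2 ^ n, fun p q hp hpn hc hq hqp i => ?_⟩
  have hq1 : q.natDegree ≤ n := by
    rw [← hpn]
    exact natDegree_le_of_dvd hqp hp.ne_zero
  have hroot : ∀ z ∈ (q.map (RingHom.id ℂ)).roots, ‖z‖ ≤ |c| + 1 := by
    intro z hz
    rw [Polynomial.map_id] at hz
    have h1 : p.IsRoot z := (isRoot_of_mem_roots hz).dvd hqp
    have h2 := IsRoot.norm_lt_cauchyBound hp.ne_zero h1
    have h3 : (cauchyBound p : ℝ) ≤ |c| + 1 := by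
      unfold cauchyBound
      rw [hp.leadingCoeff, nnnorm_one, div_one]
      push_cast
      have h4 : (((Finset.range p.natDegree).sup (fun x => ‖p.coeff x‖₊) : NNReal) : ℝ) ≤ |c| := by
        have h5 : (Finset.range p.natDegree).sup (fun x => ‖p.coeff x‖₊) ≤ Real.toNNReal |c| := by
          refine Finset.sup_le fun j _ => ?_
          rw [← NNReal.coe_le_coe, Real.coe_toNNReal _ (abs_nonneg c), coe_nnnorm]
          exact (hc j).trans (le_abs_self c)
        have h6 := NNReal.coe_le_coe.2 h5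
        rwa [Real.coe_toNNReal _ (abs_nonneg c)] at h6
      linarith
    have h7 : (‖z‖₊ : ℝ) < cauchyBound p := by exact_mod_cast h2
    rw [coe_nnnorm] at h7
    linarith
  have h := coeff_le_of_roots_le (f := RingHom.id ℂ) i hq (IsAlgClosed.splits _) hroot
  rw [Polynomial.map_id] at h
  refine h.trans ?_
  have h1 : (1 : ℝ) ≤ |c| + 1 := by linarith [abs_nonneg c]
  refine mul_le_mul (pow_le_pow_right₀ h1 (by omega)) ?_ (by positivity) (by positivity)
  have h2 : q.natDegree.choose i ≤ 2 ^ q.natDegree := Nat.choose_le_two_pow _ _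
  have h3 : (2 : ℕ) ^ q.natDegree ≤ 2 ^ n := Nat.pow_le_pow_right (by norm_num) hq1
  exact_mod_cast h2.trans h3

/-- a root of unity -/
def Rt {F : Type*} [Field F] (z : F) : Prop := ∃ n : ℕ, 0 < n ∧ z ^ n = 1

lemma Rt.ne {F : Type*} [Field F] {z : F} (h : Rt z) : z ≠ 0 := by
  obtain ⟨n, hn, h⟩ := h
  rintro rfl
  rw [zero_pow hn.ne'] at h
  exact zero_ne_one h

open Pool.Agent.N695.CY Finset in
/-- torsion points on a variety: the coordinate `j₀` is in a finite set or the variety contains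
the coset of a one-parameter group through the point which moves the coordinate `j₀` -/
theorem stru {J Φ : Type} [Fintype J] [DecidableEq J] [Fintype Φ] (G : Φ → MvPolynomial J ℂ) (j₀ : J) :
    ∃ Z : Set ℂ, Z.Finite ∧ ∀ z : J → ℂ, (∀ j, Rt (z j)) → (∀ F, MvPolynomial.eval z (G F) = 0) → z j₀ ∉ Z →
      ∃ k : J → ℤ, k j₀ ≠ 0 ∧ ∀ t : ℂ, t ≠ 0 → ∀ F, MvPolynomial.eval (fun j => z j * t ^ k j) (G F) = 0 := by
  obtain ⟨C, hC, h1, h2⟩ := structure_thm G
  refine ⟨(fun c : (J → ℂ) × (J → J → ℤ) => c.1 j₀) '' C, hC.image _, fun z hz hG hZ => ?_⟩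
  choose n hn hzn using hz
  have hsol : IsSol z := by
    refine ⟨2, 0, z, ∏ j, n j, by norm_num, by norm_num, prod_pos fun j _ => hn j, fun j => ?_, fun j => ?_⟩
    · rw [← prod_erase_mul univ n (mem_univ j), mul_comm, pow_mul, hzn, one_pow]
    · simp
  obtain ⟨c, hc, σ, hσ, hzc⟩ := h2 z hsol hG
  have hex : ∃ a, c.2 a j₀ ≠ 0 := by
    by_contra hcon
    push Not at hcon
    apply hZ
    refine ⟨c, hc, ?_⟩
    rw [hzc j₀]
    simp [hcon]
  obtain ⟨a, ha⟩ := hex
  refine ⟨c.2 a, ha, fun t ht F => ?_⟩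
  have h3 := (h1 c hc).2 (fun b => if b = a then σ b * t else σ b) (fun b => by
    split_ifs
    · exact mul_ne_zero (hσ b) ht
    · exact hσ b) F
  have h4 : (fun j => z j * t ^ c.2 a j) =
      fun j => c.1 j * ∏ b, (if b = a then σ b * t else σ b) ^ c.2 b j := by
    funext j
    rw [hzc j, mul_assoc]
    congr 1
    have h5 : ∀ b, (if b = a then σ b * t else σ b) ^ c.2 b j =
        σ b ^ c.2 b j * (if b = a then t ^ c.2 b j else 1) := by
      intro b
      split_ifs
      · rw [mul_zpow]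
      · rw [mul_one]
    rw [prod_congr rfl fun b _ => h5 b, prod_mul_distrib, prod_ite_eq' univ a]
    simp
  rw [h4]
  exact h3

/-- a Laurent polynomial with all nonzero numbers as zeros is zero -/
theorem lau {F : Type*} [Field F] [Infinite F] (P : F[T;T⁻¹])
    (h : ∀ t : Fˣ, LaurentPolynomial.eval₂ (RingHom.id F) t P = 0) : P = 0 := by
  obtain ⟨n, f, hf⟩ := P.exists_T_pow
  have h1 : ∀ t : F, t ≠ 0 → f.eval t = 0 := by
    intro t ht
    have h2 : LaurentPolynomial.eval₂ (RingHom.id F) (Units.mk0 t ht) (Polynomial.toLaurent f) = 0 := by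
      rw [hf, map_mul, h, zero_mul]
    rw [LaurentPolynomial.eval₂_toLaurent] at h2
    exact h2
  have h2 : f = 0 := by
    refine Polynomial.eq_zero_of_infinite_isRoot f ?_
    refine Set.Infinite.mono (s := ({0}ᶜ : Set F)) (fun t ht => h1 t ht) ?_
    exact Set.Finite.infinite_compl (Set.finite_singleton 0)
  rw [h2, map_zero] at hf
  have h3 := LaurentPolynomial.isUnit_T (R := F) (n : ℤ)
  exact (h3.mul_left_eq_zero.1 hf.symm)

/-- equality of Laurent polynomials from the values -/
theorem lau_eq {F : Type*} [Field F] [Infinite F] (P Q : F[T;T⁻¹])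
    (h : ∀ t : Fˣ, LaurentPolynomial.eval₂ (RingHom.id F) t P = LaurentPolynomial.eval₂ (RingHom.id F) t Q) :
    P = Q := by
  rw [← sub_eq_zero]
  refine lau _ fun t => ?_
  rw [map_sub, h t, sub_self]

end Pool.Agent.Helper79.FE
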