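import Pool.Agent.Helper79.FE.DZa

set_option autoImplicit false

/-!
# Fields generated by roots of unity over number fields, and Loxton's theorem in them
-/

namespace Pool.Agent.Helper79.FE

open Polynomial IntermediateField Module

universe u

/-- the fields `N` generated by roots of unity over a number field, containing all roots of unity and
normal over `ℚ` -/
structure CycF (N : Type u) [Field N] [CharZero N] : Prop where
  normal : Normal ℚ N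
  prim : ∀ n : ℕ, 0 < n → ∃ ζ : N, IsPrimitiveRoot ζ n
  fin : ∃ K₁ : IntermediateField ℚ N, FiniteDimensional ℚ K₁ ∧
    ∀ x : N, ∃ (n : ℕ) (ζ : N), 0 < n ∧ IsPrimitiveRoot ζ n ∧ x ∈ IntermediateField.adjoin K₁ {ζ}

variable {N : Type u} [Field N] [CharZero N]

theorem CycF.rt_pow (hN : CycF N) {η : N} (hη : Rt η) {a : ℕ} (ha : 0 < a) : ∃ ω : N, Rt ω ∧ ω ^ a = η := by
  obtain ⟨n, hn, h⟩ := hη
  obtain ⟨ζ, hζ⟩ := hN.prim (n * a) (Nat.mul_pos hn ha)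
  have h1 : IsPrimitiveRoot (ζ ^ a) n := hζ.pow (Nat.mul_pos hn ha) (by ring)
  have : NeZero n := ⟨hn.ne'⟩
  obtain ⟨j, hj, h2⟩ := h1.eq_pow_of_pow_eq_one h
  refine ⟨ζ ^ j, ⟨n * a, Nat.mul_pos hn ha, ?_⟩, ?_⟩
  · rw [← pow_mul, mul_comm, pow_mul, hζ.pow_eq_one, one_pow]
  · rw [← h2, ← pow_mul, ← pow_mul, mul_comm]

theorem rt_map {F F' : Type*} [Field F] [Field F'] (S : F →+* F') {z : F} (h : Rt z) : Rt (S z) := by
  obtain ⟨n, hn, h⟩ := h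
  exact ⟨n, hn, by rw [← map_pow, h, map_one]⟩

theorem CycF.rt_range (hN : CycF N) {F : Type*} [Field F] (S : N →+* F) {z : F} (h : Rt z) :
    ∃ c : N, Rt c ∧ S c = z := by
  obtain ⟨n, hn, h⟩ := h
  obtain ⟨ζ, hζ⟩ := hN.prim n hn
  have h1 : IsPrimitiveRoot (S ζ) n := hζ.map_of_injective S.injective
  have : NeZero n := ⟨hn.ne'⟩
  obtain ⟨j, hj, h2⟩ := h1.eq_pow_of_pow_eq_one h
  refine ⟨ζ ^ j, ⟨n, hn, ?_⟩, by rw [map_pow, h2]⟩
  rw [← pow_mul, mul_comm, pow_mul, hζ.pow_eq_one, one_pow]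

theorem bdd_conj [Algebra.IsAlgebraic ℚ N] (x : N) : ∃ c : ℝ, ∀ τ : N →+* ℂ, ‖τ x‖ ≤ c := by
  have hfin : ((fun z : ℂ => ‖z‖) '' ((minpoly ℚ x).rootSet ℂ)).Finite :=
    (rootSet_finite _ _).image _
  obtain ⟨c, hc⟩ := hfin.bddAbove
  refine ⟨c, fun τ => hc ⟨τ x, ?_, rfl⟩⟩
  rw [mem_rootSet]
  refine ⟨minpoly.ne_zero (Algebra.IsIntegral.isIntegral (R := ℚ) x), ?_⟩
  have h1 : aeval (τ.toRatAlgHom x) (minpoly ℚ x) = τ.toRatAlgHom (aeval x (minpoly ℚ x)) :=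
    aeval_algHom_apply _ _ _
  rw [minpoly.aeval, map_zero] at h1
  exact h1

theorem cf_le (hN : Normal ℚ N) (S : N →+* ℂ) (K₁ : IntermediateField ℚ N) [NumberField K₁] :
    TRC.CF K₁ ≤ S.toRatAlgHom.fieldRange := by
  unfold TRC.CF
  rw [IntermediateField.adjoin_le_iff]
  rintro z ⟨x, hx⟩
  have h1 : minpoly ℚ x = minpoly ℚ (x : N) := (minpoly.algebraMap_eq (algebraMap K₁ N).injective x).symm
  have h2 := (hN.splits (x : N)).image_rootSet S.toRatAlgHom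
  have h3 : z ∈ (minpoly ℚ (x : N)).rootSet ℂ := by
    rw [mem_rootSet]
    exact ⟨minpoly.ne_zero (hN.isIntegral _), by rw [← h1]; exact hx⟩
  rw [← h2] at h3
  obtain ⟨r, hr, h4⟩ := h3
  exact ⟨r, h4⟩

/-- Loxton's theorem in `N` -/
theorem loxN (hN : CycF N) (S : N →+* ℂ) (B : ℝ) : ∃ (M : ℕ) (θ : Fin M → ℂ), (∀ i, ∃ c : N, S c = θ i) ∧
    ∀ y : N, IsIntegral ℤ y → (∀ τ : N →+* ℂ, ‖τ y‖ ≤ B) →
      ∃ z : Fin M → ℂ, (∀ i, RU (z i)) ∧ S y = ∑ i, θ i * z i := by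
  obtain ⟨K₁, hK₁, hfin⟩ := hN.fin
  have hnf : NumberField K₁ := ⟨⟩
  have halg : Algebra.IsAlgebraic ℚ N := hN.normal.toIsAlgebraic
  obtain ⟨M, θ, hθ, H⟩ := loxk.{u, u} K₁ (S.comp (algebraMap K₁ N)) B
  refine ⟨M, θ, fun i => ?_, fun y hy hyB => ?_⟩
  · obtain ⟨c, hc⟩ := cf_le hN.normal S K₁ (hθ i)
    exact ⟨c, hc⟩
  · obtain ⟨n, ζ, hn, hζ, hyK⟩ := hfin y
    have hζi : IsIntegral K₁ ζ := (hζ.isIntegral hn).tower_top
    have hfd : FiniteDimensional K₁ K₁⟮ζ⟯ := IntermediateField.adjoin.finiteDimensional hζi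
    have hfd2 : FiniteDimensional ℚ K₁⟮ζ⟯ := FiniteDimensional.trans ℚ K₁ K₁⟮ζ⟯
    have hnf2 : NumberField K₁⟮ζ⟯ := ⟨⟩
    set ζE : K₁⟮ζ⟯ := ⟨ζ, mem_adjoin_simple_self K₁ ζ⟩ with hζE
    set yE : K₁⟮ζ⟯ := ⟨y, hyK⟩ with hyE
    have hζE' : IsPrimitiveRoot ζE n := by
      refine IsPrimitiveRoot.of_map_of_injective (f := algebraMap K₁⟮ζ⟯ N) ?_ (algebraMap K₁⟮ζ⟯ N).injective
      exact hζ
    have hmem : yE ∈ K₁⟮ζE⟯ := by
      have h1 : y ∈ (K₁⟮ζE⟯).map (K₁⟮ζ⟯).val := by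
        rw [IntermediateField.adjoin_map, Set.image_singleton]
        exact hyK
      obtain ⟨y', hy', h2⟩ := h1
      have h3 : y' = yE := Subtype.ext h2
      rw [← h3]
      exact hy'
    have hint : IsIntegral ℤ yE := by
      rw [← isIntegral_algebraMap_iff (algebraMap K₁⟮ζ⟯ N).injective]
      exact hy
    have halg2 : Algebra.IsAlgebraic K₁⟮ζ⟯ N := Algebra.IsAlgebraic.tower_top (K := ℚ) K₁⟮ζ⟯
    obtain ⟨z, hz, hS⟩ := H n hn K₁⟮ζ⟯ ζE hζE' (S.comp (algebraMap K₁⟮ζ⟯ N)) (by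
      ext x; rfl) yE hmem hint (fun τ => by
        let _ : Algebra K₁⟮ζ⟯ ℂ := τ.toAlgebra
        let t : N →ₐ[K₁⟮ζ⟯] ℂ := IsAlgClosed.lift
        have h1 := hyB t.toRingHom
        have h2 : t.toRingHom y = τ yE := t.commutes yE
        rwa [h2] at h1)
    exact ⟨z, hz, hS⟩

end Pool.Agent.Helper79.FE
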