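import Pool.Agent.Helper79.FE.DZ

set_option autoImplicit false

/-!
# From a factorization over `N(w)`, `w ^ a = h`, to a root of `h`
-/

namespace Pool.Agent.Helper79.FE

open Polynomial IntermediateField Module
open scoped LaurentPolynomial

/-- if `w ^ a = h` in an extension of `E`, `E` contains the roots of unity and `w` has degree less than `a`
over `E`, then `h` is a proper power in `E` -/
theorem proper_pow {E Ω : Type*} [Field E] [Field Ω] [IsAlgClosed Ω] [Algebra E Ω]
    (hrt : ∀ z : Ω, Rt z → z ∈ (algebraMap E Ω).range) (h : E) (h0 : h ≠ 0) (w : Ω) (a : ℕ) (ha : 0 < a)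
    (hw : w ^ a = algebraMap E Ω h) (hdeg : (minpoly E w).natDegree < a) :
    ∃ (r : E) (q : ℕ), 2 ≤ q ∧ r ^ q = h := by
  classical
  have hw0 : w ≠ 0 := by
    rintro rfl
    rw [zero_pow ha.ne', eq_comm, map_eq_zero] at hw
    exact h0 hw
  have hint : IsIntegral E w := by
    refine ⟨X ^ a - C h, monic_X_pow_sub_C h ha.ne', ?_⟩
    simp [hw]
  set g := minpoly E w with hg
  have hgm : g.Monic := minpoly.monic hint
  have hdvd : g ∣ X ^ a - C h := minpoly.dvd E w (by simp [hw])
  set e := g.natDegree with he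
  have he0 : 0 < e := minpoly.natDegree_pos hint
  have hsplit : (g.map (algebraMap E Ω)).Splits := IsAlgClosed.splits _
  have hroots : ∀ r ∈ (g.map (algebraMap E Ω)).roots, r ^ a = w ^ a := by
    intro r hr
    have h1 := (isRoot_of_mem_roots hr).dvd (Polynomial.map_dvd (algebraMap E Ω) hdvd)
    rw [IsRoot.def, Polynomial.map_sub, Polynomial.map_pow, map_X, map_C, eval_sub, eval_pow, eval_X, eval_C,
      sub_eq_zero] at h1
    rw [h1, hw]
  have hcard : (g.map (algebraMap E Ω)).roots.card = e := by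
    rw [← hsplit.natDegree_eq_card_roots, natDegree_map]
  have hprod : (g.map (algebraMap E Ω)).roots.prod =
      w ^ e * ((g.map (algebraMap E Ω)).roots.map fun r => r / w).prod := by
    have h1 : (g.map (algebraMap E Ω)).roots = (g.map (algebraMap E Ω)).roots.map fun r => w * (r / w) := by
      conv_lhs => rw [← Multiset.map_id (g.map (algebraMap E Ω)).roots]
      refine Multiset.map_congr rfl fun r _ => ?_
      rw [mul_div_cancel₀ _ hw0]
      rfl
    conv_lhs => rw [h1]
    rw [Multiset.prod_map_mul, Multiset.map_const', Multiset.prod_replicate, hcard]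
  set ρ := ((g.map (algebraMap E Ω)).roots.map fun r => r / w).prod with hρ
  have hρa : ρ ^ a = 1 := by
    rw [hρ, ← Multiset.prod_map_pow]
    refine Multiset.prod_eq_one fun x hx => ?_
    obtain ⟨r, hr, rfl⟩ := Multiset.mem_map.1 hx
    rw [div_pow, hroots r hr, div_self (pow_ne_zero _ hw0)]
  obtain ⟨ρ', hρ'⟩ := hrt ρ ⟨a, ha, hρa⟩
  have hρ0 : ρ' ≠ 0 := by
    rintro rfl
    rw [map_zero] at hρ'
    rw [← hρ', zero_pow ha.ne'] at hρa
    exact zero_ne_one hρa
  have hcoef : algebraMap E Ω (g.coeff 0) = (-1) ^ e * (w ^ e * ρ) := by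
    rw [← hprod, ← coeff_map, hsplit.coeff_zero_eq_prod_roots_of_monic (hgm.map _), natDegree_map]
  have hwe : ∃ b : E, algebraMap E Ω b = w ^ e := by
    refine ⟨(-1) ^ e * g.coeff 0 * ρ'⁻¹, ?_⟩
    have h1 : ((-1 : Ω) ^ e) * ((-1) ^ e) = 1 := by rw [← mul_pow]; simp
    rw [map_mul, map_mul, map_inv₀, hρ', hcoef, map_pow, map_neg, map_one]
    have hρ00 : ρ ≠ 0 := by rw [← hρ']; exact (_root_.map_ne_zero _).2 hρ0
    field_simp
    linear_combination h1
  obtain ⟨b, hb⟩ := hwe
  have hb0 : b ≠ 0 := by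
    rintro rfl
    rw [map_zero] at hb
    exact pow_ne_zero _ hw0 hb.symm
  -- the greatest common divisor
  set d := Nat.gcd e a with hd
  have hd0 : 0 < d := Nat.gcd_pos_of_pos_left _ he0
  have hda : d < a := (Nat.le_of_dvd he0 (Nat.gcd_dvd_left e a)).trans_lt hdeg
  obtain ⟨q, hq⟩ : d ∣ a := Nat.gcd_dvd_right e a
  have hbez : (d : ℤ) = e * Nat.gcdA e a + a * Nat.gcdB e a := Nat.gcd_eq_gcd_ab e a
  refine ⟨b ^ Nat.gcdA e a * h ^ Nat.gcdB e a, q, ?_, ?_⟩
  · by_contra hcon
    have : q = 0 ∨ q = 1 := by omega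
    rcases this with rfl | rfl
    · omega
    · omega
  · apply (algebraMap E Ω).injective
    rw [map_pow, map_mul, map_zpow₀, map_zpow₀, hb, ← hw]
    have h1 : (w ^ e) ^ Nat.gcdA e a * (w ^ a) ^ Nat.gcdB e a = w ^ d := by
      rw [← zpow_natCast w e, ← zpow_natCast w a, ← zpow_mul, ← zpow_mul, ← zpow_add₀ hw0, ← hbez, zpow_natCast]
    rw [h1, ← pow_mul, ← hq]

theorem deg_aux {F F₁ E Ω : Type*} [Field F] [Field F₁] [Field E] [Field Ω] [Algebra F F₁] [Algebra F₁ Ω]
    [Algebra F E] [Algebra E Ω] [Algebra F Ω] [IsScalarTower F F₁ Ω] [IsScalarTower F E Ω]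
    (U : IntermediateField F₁ Ω) (V : IntermediateField E Ω) [FiniteDimensional F F₁]
    [FiniteDimensional F₁ U] (h : ∀ x ∈ V, x ∈ U) :
    finrank F E * finrank E V ≤ finrank F F₁ * finrank F₁ U := by
  have hfd : FiniteDimensional F U := FiniteDimensional.trans F F₁ U
  let ι : V →ₗ[F] U :=
    { toFun := fun x => ⟨x.1, h x.1 x.2⟩
      map_add' := fun x y => rfl
      map_smul' := fun c x => Subtype.ext rfl }
  have hι : Function.Injective ι := by
    intro x y hxy
    have h1 : (ι x).1 = (ι y).1 := congrArg Subtype.val hxy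
    exact Subtype.ext h1
  have h1 := LinearMap.finrank_le_finrank_of_injective hι
  have h2 := Module.finrank_mul_finrank F E V
  have h3 := Module.finrank_mul_finrank F F₁ U
  rw [h2, h3]
  exact h1

/-- the degree argument -/
theorem pow_of_red {N E : Type*} [Field N] [CharZero N] [Field E] [Algebra N E]
    (hprim : ∀ n : ℕ, 0 < n → ∃ ζ : N, IsPrimitiveRoot ζ n) (h y : E) (h0 : h ≠ 0)
    (htop : (N⟮h⟯)⟮y⟯ = ⊤) [FiniteDimensional N⟮h⟯ E] (G : N[X][X])
    (hGn : G.natDegree = finrank N⟮h⟯ E) (hroot : (G.map (eval₂RingHom (algebraMap N E) h)).eval y = 0)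
    (a : ℕ) (ha : 0 < a) (A B : N[T;T⁻¹][X]) (hA : A.Monic) (hB : B.Monic) (hA0 : 0 < A.natDegree)
    (hB0 : 0 < B.natDegree) (hG : G.Monic) (hAB : A * B = G.map (sub N a)) :
    ∃ (r : E) (q : ℕ), 2 ≤ q ∧ r ^ q = h := by
  classical
  let Ω := AlgebraicClosure E
  have hrt : ∀ z : Ω, Rt z → z ∈ (algebraMap E Ω).range := by
    rintro z ⟨n, hn, hz⟩
    obtain ⟨ζ, hζ⟩ := hprim n hn
    have : NeZero n := ⟨hn.ne'⟩
    have h1 : IsPrimitiveRoot (algebraMap E Ω (algebraMap N E ζ)) n :=
      (hζ.map_of_injective (algebraMap N E).injective).map_of_injective (algebraMap E Ω).injective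
    obtain ⟨j, hj, h2⟩ := h1.eq_pow_of_pow_eq_one hz
    exact ⟨algebraMap N E ζ ^ j, by rw [map_pow, h2]⟩
  obtain ⟨w, hw⟩ := IsAlgClosed.exists_pow_nat_eq (algebraMap E Ω h) ha
  have hw0 : w ≠ 0 := by
    rintro rfl
    rw [zero_pow ha.ne', eq_comm, _root_.map_eq_zero] at hw
    exact h0 hw
  refine proper_pow hrt h h0 w a ha hw ?_
  set F := N⟮h⟯ with hF
  set hF' : F := ⟨h, mem_adjoin_simple_self N h⟩ with hhF
  have hwint : IsIntegral F w := by
    refine ⟨X ^ a - C hF', monic_X_pow_sub_C hF' ha.ne', ?_⟩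
    rw [eval₂_sub, eval₂_X_pow, eval₂_C, hw, IsScalarTower.algebraMap_apply F E Ω]
    exact sub_self _
  have hyint : IsIntegral F (algebraMap E Ω y) :=
    (IsIntegral.of_finite F y).map (IsScalarTower.toAlgHom F E Ω)
  have hdw : finrank F F⟮w⟯ ≤ a := by
    rw [IntermediateField.adjoin.finrank hwint]
    have h1 : minpoly F w ∣ X ^ a - C hF' := by
      refine minpoly.dvd F w ?_
      rw [map_sub, map_pow, aeval_X, aeval_C, hw, IsScalarTower.algebraMap_apply F E Ω]
      exact sub_self _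
    have h2 := natDegree_le_of_dvd h1 (X_pow_sub_C_ne_zero ha _)
    rwa [natDegree_X_pow_sub_C] at h2
  -- the factors over `F(w)`
  set wF : F⟮w⟯ := ⟨w, mem_adjoin_simple_self F w⟩ with hwF
  have hwF0 : wF ≠ 0 := fun h1 => hw0 (congrArg Subtype.val h1)
  let φ : N[T;T⁻¹] →+* F⟮w⟯ :=
    LaurentPolynomial.eval₂ ((algebraMap F F⟮w⟯).comp (algebraMap N F)) (Units.mk0 wF hwF0)
  have hyw : IsIntegral F⟮w⟯ (algebraMap E Ω y) := hyint.tower_top
  have hdy : finrank F⟮w⟯ (F⟮w⟯)⟮algebraMap E Ω y⟯ < G.natDegree := by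
    rw [IntermediateField.adjoin.finrank hyw]
    have h1 : (aeval (algebraMap E Ω y) (A.map φ)) * (aeval (algebraMap E Ω y) (B.map φ)) = 0 := by
      rw [← map_mul, ← Polynomial.map_mul, hAB, Polynomial.map_map]
      have h2 : aeval (algebraMap E Ω y) (G.map (φ.comp (sub N a))) =
          algebraMap E Ω ((G.map (eval₂RingHom (algebraMap N E) h)).eval y) := by
        rw [aeval_def, eval₂_map, ← eval₂_hom, eval₂_map]
        congr 1
        refine Polynomial.ringHom_ext (fun x => ?_) ?_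
        · simp [φ, sub]
          rfl
        · simp [φ, sub, LaurentPolynomial.eval₂_T]
          exact hw
      rw [h2, hroot, map_zero]
    have hsum : A.natDegree + B.natDegree = G.natDegree := by
      rw [← hA.natDegree_mul hB, hAB, hG.natDegree_map]
    rcases mul_eq_zero.1 h1 with h2 | h2
    · have h3 := natDegree_le_of_dvd (minpoly.dvd _ _ h2) (hA.map φ).ne_zero
      rw [hA.natDegree_map] at h3
      omega
    · have h3 := natDegree_le_of_dvd (minpoly.dvd _ _ h2) (hB.map φ).ne_zero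
      rw [hB.natDegree_map] at h3
      omega
  have hwE : IsIntegral E w := hwint.tower_top
  rw [← IntermediateField.adjoin.finrank hwE]
  by_contra hcon
  push Not at hcon
  have hfd1 : FiniteDimensional F F⟮w⟯ := IntermediateField.adjoin.finiteDimensional hwint
  have hfd2 : FiniteDimensional F⟮w⟯ (F⟮w⟯)⟮algebraMap E Ω y⟯ :=
    IntermediateField.adjoin.finiteDimensional hyw
  have hfd3 : FiniteDimensional F (F⟮w⟯)⟮algebraMap E Ω y⟯ := FiniteDimensional.trans F F⟮w⟯ _
  have hfd4 : FiniteDimensional E E⟮w⟯ := IntermediateField.adjoin.finiteDimensional hwE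
  have hmemE : ∀ x : E, algebraMap E Ω x ∈ (F⟮w⟯)⟮algebraMap E Ω y⟯ := by
    intro x
    have hx : x ∈ (N⟮h⟯)⟮y⟯ := by rw [htop]; trivial
    induction hx using IntermediateField.adjoin_induction with
    | mem x hx =>
      rw [Set.mem_singleton_iff] at hx
      rw [hx]
      exact mem_adjoin_simple_self _ _
    | algebraMap x =>
      have h1 : algebraMap E Ω (algebraMap N⟮h⟯ E x) = algebraMap F⟮w⟯ Ω (algebraMap F F⟮w⟯ x) := rfl
      rw [h1]
      exact IntermediateField.algebraMap_mem _ _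
    | add x y _ _ h1 h2 => rw [map_add]; exact add_mem h1 h2
    | mul x y _ _ h1 h2 => rw [map_mul]; exact mul_mem h1 h2
    | inv x _ h => rw [map_inv₀]; exact inv_mem h
  have hmem : ∀ x : Ω, x ∈ E⟮w⟯ → x ∈ (F⟮w⟯)⟮algebraMap E Ω y⟯ := by
    intro x hx
    induction hx using IntermediateField.adjoin_induction with
    | mem x hx =>
      rw [Set.mem_singleton_iff] at hx
      rw [hx]
      exact IntermediateField.algebraMap_mem _ wF
    | algebraMap x => exact hmemE x
    | add x y _ _ h1 h2 => exact add_mem h1 h2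
    | mul x y _ _ h1 h2 => exact mul_mem h1 h2
    | inv x _ h => exact inv_mem h
  have h1 := deg_aux (F := F) (F⟮w⟯)⟮algebraMap E Ω y⟯ E⟮w⟯ hmem
  have h4 : finrank F E * a ≤ finrank F E * finrank E E⟮w⟯ := Nat.mul_le_mul_left _ hcon
  have h5 : finrank F F⟮w⟯ * finrank F⟮w⟯ (F⟮w⟯)⟮algebraMap E Ω y⟯ ≤ a * (finrank F E - 1) :=
    Nat.mul_le_mul hdw (by omega)
  have h6 : finrank F E * a ≤ a * (finrank F E - 1) := by omega
  have h7 : 0 < finrank F E := by omega
  rw [mul_comm] at h6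
  have h8 := Nat.le_of_mul_le_mul_left h6 ha
  omega

end Pool.Agent.Helper79.FE
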