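import Pool.Agent.Helper79.FE.Prim

set_option autoImplicit false

/-!
# The valuations over a point with irreducible fibre
-/

namespace Pool.Agent.Helper79.FE

open scoped WithZero
open Polynomial IntermediateField Module

section frac

variable {R E : Type*} [CommRing R] [Field E] (Ψ : R →+* E)

/-- a fraction of values of `Ψ` -/
def Fr (x : E) : Prop := ∃ P Q : R, Ψ Q ≠ 0 ∧ x = Ψ P / Ψ Q

theorem Fr.add {x y : E} (hx : Fr Ψ x) (hy : Fr Ψ y) : Fr Ψ (x + y) := by
  obtain ⟨P, Q, hQ, rfl⟩ := hx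
  obtain ⟨P', Q', hQ', rfl⟩ := hy
  refine ⟨P * Q' + P' * Q, Q * Q', by rw [map_mul]; exact mul_ne_zero hQ hQ', ?_⟩
  rw [map_add, map_mul, map_mul, map_mul]
  field_simp

theorem Fr.mul {x y : E} (hx : Fr Ψ x) (hy : Fr Ψ y) : Fr Ψ (x * y) := by
  obtain ⟨P, Q, hQ, rfl⟩ := hx
  obtain ⟨P', Q', hQ', rfl⟩ := hy
  refine ⟨P * P', Q * Q', by rw [map_mul]; exact mul_ne_zero hQ hQ', ?_⟩
  rw [map_mul, map_mul]
  field_simp

theorem Fr.inv {x : E} (hx : Fr Ψ x) : Fr Ψ x⁻¹ := by
  obtain ⟨P, Q, hQ, rfl⟩ := hx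
  by_cases hP : Ψ P = 0
  · refine ⟨0, 1, by rw [map_one]; exact one_ne_zero, ?_⟩
    rw [hP]; simp
  · exact ⟨Q, P, hP, by rw [inv_div]⟩

theorem Fr.of (P : R) : Fr Ψ (Ψ P) := ⟨P, 1, by rw [map_one]; exact one_ne_zero, by rw [map_one, div_one]⟩

end frac

variable {N E : Type*} [Field N] [Field E] [Algebra N E]

/-- the value of a polynomial in two variables -/
noncomputable def ev (h y : E) : N[X][X] →+* E := eval₂RingHom (eval₂RingHom (algebraMap N E) h) y

theorem ev_C (h y : E) (P : N[X]) : ev h y (C P) = eval₂ (algebraMap N E) h P := by simp [ev]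

theorem ev_map (h y : E) (G : N[X][X]) : ev h y G = (G.map (eval₂RingHom (algebraMap N E) h)).eval y := by
  rw [eval_map]
  rfl

theorem ev_frac (h y : E) (htop : (N⟮h⟯)⟮y⟯ = ⊤) (x : E) : Fr (ev (N := N) h y) x := by
  have hin : ∀ x : E, x ∈ N⟮h⟯ → Fr (ev (N := N) h y) x := by
    intro x hx
    induction hx using IntermediateField.adjoin_induction with
    | mem x hx =>
      rw [Set.mem_singleton_iff] at hx
      have h1 : ev (N := N) h y (C X) = h := by simp [ev]
      have h2 := Fr.of (ev (N := N) h y) (C X)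
      rw [hx]
      rwa [h1] at h2
    | algebraMap x =>
      have h1 : ev (N := N) h y (C (C x)) = algebraMap N E x := by simp [ev]
      have h2 := Fr.of (ev (N := N) h y) (C (C x))
      rwa [h1] at h2
    | add x y _ _ h1 h2 => exact h1.add _ h2
    | mul x y _ _ h1 h2 => exact h1.mul _ h2
    | inv x _ h => exact h.inv _
  have hx : x ∈ (N⟮h⟯)⟮y⟯ := by rw [htop]; trivial
  induction hx using IntermediateField.adjoin_induction with
  | mem x hx =>
    rw [Set.mem_singleton_iff] at hx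
    have h1 : ev (N := N) h y X = y := by simp [ev]
    have h2 := Fr.of (ev (N := N) h y) X
    rw [hx]
    rwa [h1] at h2
  | algebraMap x => exact hin _ x.2
  | add x y _ _ h1 h2 => exact h1.add _ h2
  | mul x y _ _ h1 h2 => exact h1.mul _ h2
  | inv x _ h => exact h.inv _

/-- the value at `t = η` -/
noncomputable def red (η : N) : N[X][X] →+* N[X] := mapRingHom (evalRingHom η)

theorem red_zero (η : N) (P : N[X][X]) (hP : red η P = 0) : ∃ Q : N[X][X], P = C (X - C η) * Q := by
  have h1 : ∀ i, (X - C η) ∣ P.coeff i := by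
    intro i
    rw [dvd_iff_isRoot, IsRoot.def]
    have h2 := congrArg (fun q => q.coeff i) hP
    simpa [red] using h2
  have h2 : C (X - C η) ∣ P := (C_dvd_iff_dvd_coeff _ _).2 h1
  exact h2

theorem red_map (η : N) (Q : N[X]) : red η (Q.map C) = Q := by
  unfold red
  rw [coe_mapRingHom, Polynomial.map_map]
  have h1 : (evalRingHom η).comp C = RingHom.id N := by ext; simp
  rw [h1, Polynomial.map_id]

theorem val_le_of {v : Valuation E ℤᵐ⁰} (hv : v ∈ VN N E) {h y : E} {η : N} (hη : v (h - algebraMap N E η) < 1)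
    (G : N[X][X]) (hG : G.Monic) (hGy : ev h y G = 0) (P : N[X][X]) : v (ev h y P) ≤ 1 := by
  have hN : ∀ x : N, v (algebraMap N E x) ≤ 1 := by
    intro x
    by_cases hx : x = 0
    · rw [hx, map_zero, map_zero]; exact zero_le_one
    · rw [hv.2 x hx]
  have hh : v h ≤ 1 := by
    have h1 : h = (h - algebraMap N E η) + algebraMap N E η := by ring
    rw [h1]
    exact (v.map_add _ _).trans (max_le hη.le (hN η))
  have hp : ∀ Q : N[X], v (eval₂ (algebraMap N E) h Q) ≤ 1 := by
    intro Q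
    rw [eval₂_eq_sum_range]
    refine Valuation.map_sum_le v fun i _ => ?_
    rw [map_mul, map_pow]
    exact mul_le_one' (hN _) (pow_le_one₀ (zero_le) hh)
  have hy : v y ≤ 1 := by
    let _ : Algebra N[X] E := (eval₂RingHom (algebraMap N E) h).toAlgebra
    refine val_int (B := N[X]) v (fun b => hp b) y ⟨G, hG, ?_⟩
    exact hGy
  have h1 : ev h y P = ∑ i ∈ Finset.range (P.natDegree + 1), eval₂ (algebraMap N E) h (P.coeff i) * y ^ i := by
    unfold ev
    rw [coe_eval₂RingHom, eval₂_eq_sum_range]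
    rfl
  rw [h1]
  refine Valuation.map_sum_le v fun i _ => ?_
  rw [map_mul, map_pow]
  exact mul_le_one' (hp _) (pow_le_one₀ (zero_le) hy)

theorem ev_red {h y : E} (η : N) (P : N[X][X]) (hP : red η P = 0) :
    ∃ Q : N[X][X], ev h y P = (h - algebraMap N E η) * ev h y Q := by
  obtain ⟨Q, rfl⟩ := red_zero η P hP
  refine ⟨Q, ?_⟩
  rw [map_mul, ev_C]
  simp

theorem val_one_of {v : Valuation E ℤᵐ⁰} (hv : v ∈ VN N E) {h y : E} {η : N} (hη : v (h - algebraMap N E η) < 1)
    (G : N[X][X]) (hG : G.Monic) (hGy : ev h y G = 0) (hirr : Irreducible (red η G)) (P : N[X][X])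
    (hP : ¬ red η G ∣ red η P) : v (ev h y P) = 1 := by
  have hle := val_le_of hv hη G hG hGy
  have hcop : IsCoprime (red η G) (red η P) := (Irreducible.coprime_iff_not_dvd hirr).2 hP
  obtain ⟨a, b, hab⟩ := hcop
  obtain ⟨Q, hQ⟩ := ev_red (h := h) (y := y) η (a.map C * G + b.map C * P - 1) (by
    rw [map_sub, map_add, map_mul, map_mul, red_map, red_map, map_one, hab, sub_self])
  rw [map_sub, map_add, map_mul, map_mul, hGy, mul_zero, zero_add, map_one] at hQ
  have h1 : v (ev h y (b.map C) * ev h y P - 1) < 1 := by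
    rw [hQ, map_mul]
    exact (mul_le_of_le_one_right' (hle Q)).trans_lt hη
  have h2 : v (ev h y (b.map C) * ev h y P) = 1 := by
    have h3 : ev h y (b.map C) * ev h y P = 1 + (ev h y (b.map C) * ev h y P - 1) := by ring
    rw [h3]
    exact Valuation.map_one_add_of_lt v h1
  rw [map_mul] at h2
  refine le_antisymm (hle P) ?_
  rw [← h2]
  exact mul_le_of_le_one_left' (hle _)

/-- over a point with irreducible fibre the valuations are given by one function -/
theorem uniq_aux (h y : E) (η : N) (G : N[X][X]) (hG : G.Monic) (hGy : ev h y G = 0)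
    (hirr : Irreducible (red η G)) (htop : (N⟮h⟯)⟮y⟯ = ⊤) :
    ∃ k : E → ℤ, ∀ v ∈ VN N E, v (h - algebraMap N E η) < 1 → ∀ x : E, x ≠ 0 →
      v x = v (h - algebraMap N E η) ^ k x := by
  classical
  by_cases hex : ∃ v₀ ∈ VN N E, v₀ (h - algebraMap N E η) < 1
  swap
  · refine ⟨fun _ => 0, fun v hv hlt => absurd ⟨v, hv, hlt⟩ hex⟩
  obtain ⟨v₀, hv₀, hlt₀⟩ := hex
  -- the order of a polynomial
  have hord : ∀ n : ℕ, ∀ P : N[X][X], ev h y P ≠ 0 → WithZero.log (v₀ (ev h y P)) = -(n : ℤ) →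
      ∃ (k : ℕ) (P₀ : N[X][X]), ev h y P = (h - algebraMap N E η) ^ k * ev h y P₀ ∧ ¬ red η G ∣ red η P₀ := by
    intro n
    induction n using Nat.strong_induction_on with
    | _ n ih =>
      intro P hP hn
      by_cases hd : red η G ∣ red η P
      · obtain ⟨q, hq⟩ := hd
        obtain ⟨Q, hQ⟩ := ev_red (h := h) (y := y) η (P - G * q.map C) (by
          rw [map_sub, map_mul, red_map, hq, sub_self])
        rw [map_sub, map_mul, hGy, zero_mul, sub_zero] at hQ
        have hη0 : h - algebraMap N E η ≠ 0 := by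
          intro h0
          rw [h0, zero_mul] at hQ
          exact hP hQ
        have hQ0 : ev h y Q ≠ 0 := by
          intro h0
          rw [h0, mul_zero] at hQ
          exact hP hQ
        have hv1 : v₀ (h - algebraMap N E η) ≠ 0 := (Valuation.ne_zero_iff _).2 hη0
        have hv2 : v₀ (ev h y Q) ≠ 0 := (Valuation.ne_zero_iff _).2 hQ0
        have hlog : WithZero.log (v₀ (ev h y P)) =
            WithZero.log (v₀ (h - algebraMap N E η)) + WithZero.log (v₀ (ev h y Q)) := by
          rw [hQ, map_mul, WithZero.log_mul hv1 hv2]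
        have h1 : WithZero.log (v₀ (h - algebraMap N E η)) < 0 := by
          rw [← WithZero.log_one, WithZero.log_lt_log hv1 one_ne_zero]
          exact hlt₀
        have h2 : WithZero.log (v₀ (ev h y Q)) ≤ 0 := by
          rw [← WithZero.log_one, WithZero.log_le_log hv2 one_ne_zero]
          exact val_le_of hv₀ hlt₀ G hG hGy Q
        obtain ⟨m, hm⟩ := Int.eq_ofNat_of_zero_le (neg_nonneg.2 h2)
        obtain ⟨k, P₀, h3, h4⟩ := ih m (by omega) Q hQ0 (by omega)
        exact ⟨k + 1, P₀, by rw [hQ, h3, pow_succ]; ring, h4⟩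
      · exact ⟨0, P, by rw [pow_zero, one_mul], hd⟩
  have hord2 : ∀ P : N[X][X], ∃ k : ℕ, ev h y P ≠ 0 → ∀ v ∈ VN N E, v (h - algebraMap N E η) < 1 →
      v (ev h y P) = v (h - algebraMap N E η) ^ k := by
    intro P
    by_cases hP : ev h y P = 0
    · exact ⟨0, fun h => absurd hP h⟩
    have h2 : WithZero.log (v₀ (ev h y P)) ≤ 0 := by
      rw [← WithZero.log_one, WithZero.log_le_log ((Valuation.ne_zero_iff _).2 hP) one_ne_zero]
      exact val_le_of hv₀ hlt₀ G hG hGy P
    obtain ⟨m, hm⟩ := Int.eq_ofNat_of_zero_le (neg_nonneg.2 h2)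
    obtain ⟨k, P₀, h3, h4⟩ := hord m P hP (by omega)
    refine ⟨k, fun _ v hv hlt => ?_⟩
    rw [h3, map_mul, map_pow, val_one_of hv hlt G hG hGy hirr P₀ h4, mul_one]
  choose kP hkP using hord2
  have hfr : ∀ x : E, ∃ P Q : N[X][X], ev h y Q ≠ 0 ∧ x = ev h y P / ev h y Q := fun x => ev_frac h y htop x
  choose Pf Qf hQf hxf using hfr
  refine ⟨fun x => (kP (Pf x) : ℤ) - kP (Qf x), fun v hv hlt x hx => ?_⟩
  have hη0 : v (h - algebraMap N E η) ≠ 0 := by
    intro h0
    have hPf0 : ev h y (Pf x) ≠ 0 := by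
      intro h1
      apply hx
      rw [hxf x, h1, zero_div]
    -- `h` is not a constant: otherwise all values are powers of `0`
    obtain ⟨z, hz⟩ := hv.1 (WithZero.exp (-1 : ℤ))
    have hz0 : z ≠ 0 := by
      rintro rfl
      rw [map_zero] at hz
      exact WithZero.exp_ne_zero hz.symm
    have hPz : ev h y (Pf z) ≠ 0 := by
      intro h1
      apply hz0
      rw [hxf z, h1, zero_div]
    have h1 := hkP (Pf z) hPz v hv hlt
    have h2 := hkP (Qf z) (hQf z) v hv hlt
    have h3 : v z = v (ev h y (Pf z)) / v (ev h y (Qf z)) := by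
      conv_lhs => rw [hxf z]
      rw [map_div₀]
    have h4 : v (ev h y (Pf z)) ≠ 0 := (Valuation.ne_zero_iff _).2 hPz
    have h5 : v (ev h y (Qf z)) ≠ 0 := (Valuation.ne_zero_iff _).2 (hQf z)
    have h6 : kP (Pf z) = 0 := by
      by_contra hcon
      rw [h1, h0, zero_pow hcon] at h4
      exact h4 rfl
    have h7 : kP (Qf z) = 0 := by
      by_contra hcon
      rw [h2, h0, zero_pow hcon] at h5
      exact h5 rfl
    rw [h1, h2, h6, h7, pow_zero, div_one, hz, ← WithZero.exp_zero, WithZero.exp_inj] at h3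
    omega
  have hPf0 : ev h y (Pf x) ≠ 0 := by
    intro h1
    apply hx
    rw [hxf x, h1, zero_div]
  conv_lhs => rw [hxf x]
  rw [map_div₀, hkP _ hPf0 v hv hlt, hkP _ (hQf x) v hv hlt, zpow_sub₀ hη0, zpow_natCast, zpow_natCast]

/-- uniqueness of the valuation over a point with irreducible fibre -/
theorem uniq (h y : E) (η : N) (G : N[X][X]) (hG : G.Monic) (hGy : ev h y G = 0)
    (hirr : Irreducible (red η G)) (htop : (N⟮h⟯)⟮y⟯ = ⊤) :
    (∀ v ∈ VN N E, v (h - algebraMap N E η) < 1 → v (h - algebraMap N E η) = WithZero.exp (-1 : ℤ)) ∧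
    ∀ v ∈ VN N E, v (h - algebraMap N E η) < 1 → ∀ v' ∈ VN N E, v' (h - algebraMap N E η) < 1 → v = v' := by
  obtain ⟨k, hk⟩ := uniq_aux h y η G hG hGy hirr htop
  have key : ∀ v ∈ VN N E, v (h - algebraMap N E η) < 1 → v (h - algebraMap N E η) = WithZero.exp (-1 : ℤ) := by
    intro v hv hlt
    obtain ⟨z, hz⟩ := hv.1 (WithZero.exp (-1 : ℤ))
    have hz0 : z ≠ 0 := by
      rintro rfl
      rw [map_zero] at hz
      exact WithZero.exp_ne_zero hz.symm
    have h1 := hk v hv hlt z hz0
    have hne : v (h - algebraMap N E η) ≠ 0 := by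
      intro h0
      rw [h0, hz] at h1
      by_cases h2 : k z = 0
      · rw [h2, zpow_zero, ← WithZero.exp_zero, WithZero.exp_inj] at h1
        omega
      · rw [zero_zpow _ h2] at h1
        exact WithZero.exp_ne_zero h1
    set m := WithZero.log (v (h - algebraMap N E η)) with hm
    have h2 : v (h - algebraMap N E η) = WithZero.exp m := (WithZero.exp_log hne).symm
    have h3 : m < 0 := by
      rw [h2, ← WithZero.exp_zero, WithZero.exp_lt_exp] at hlt
      exact hlt
    rw [hz, h2, ← WithZero.exp_zsmul, WithZero.exp_inj] at h1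
    have h4 : m ∣ -1 := ⟨k z, by rw [h1, smul_eq_mul, mul_comm]⟩
    rcases Int.isUnit_iff.1 (isUnit_of_dvd_unit h4 (by decide)) with h5 | h5
    · omega
    · rw [h2, h5]
  refine ⟨key, fun v hv hlt v' hv' hlt' => ?_⟩
  ext x
  by_cases hx : x = 0
  · rw [hx, map_zero, map_zero]
  · rw [hk v hv hlt x hx, hk v' hv' hlt' x hx, key v hv hlt, key v' hv' hlt']

end Pool.Agent.Helper79.FE
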