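import Pool.Agent.Helper79.FE.Tm
import Pool.Agent.Helper79.FE.Uniq
import Pool.Agent.Helper79.FE.Pow

set_option autoImplicit false

/-!
# Finite dimension over the fields generated by roots of unity
-/

namespace Pool.Agent.Helper79.FE

open scoped WithZero
open Polynomial IntermediateField Module
open Pool.Agent.TH826.MK (KQ symb unitPart)
open Pool.Agent.Helper537_Sym

section general

variable {L : Type*} [Field L]

/-- every element of the span of the symbols with first entry `f` is a rational multiple of such a symbol -/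
theorem span_sy (f : Lˣ) (z : KQ L 2) (hz : z ∈ Submodule.span ℚ (Set.range fun u : Lˣ => sy f u)) :
    ∃ (q : ℚ) (u : Lˣ), z = q • sy f u := by
  induction hz using Submodule.span_induction with
  | mem x hx =>
    obtain ⟨u, rfl⟩ := hx
    exact ⟨1, u, by rw [one_smul]⟩
  | zero => exact ⟨0, 1, by rw [zero_smul]⟩
  | add x y _ _ hx hy =>
    obtain ⟨q, u, rfl⟩ := hx
    obtain ⟨r, w, rfl⟩ := hy
    refine ⟨((q.den : ℚ) * r.den)⁻¹, u ^ (q.num * r.den) * w ^ (r.num * q.den), ?_⟩
    rw [sy_mul_right, sy_zpow_right, sy_zpow_right, smul_add, smul_smul, smul_smul]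
    have hq : (q.den : ℚ) ≠ 0 := by exact_mod_cast q.den_nz
    have hr : (r.den : ℚ) ≠ 0 := by exact_mod_cast r.den_nz
    have hq2 : (q.num : ℚ) = q * q.den := (Rat.mul_den_eq_num q).symm
    have hr2 : (r.num : ℚ) = r * r.den := (Rat.mul_den_eq_num r).symm
    congr 2
    · push_cast
      rw [hq2]
      field_simp
    · push_cast
      rw [hr2]
      field_simp
  | smul a x _ hx =>
    obtain ⟨q, u, rfl⟩ := hx
    exact ⟨a * q, u, by rw [smul_smul]⟩

theorem span_inf (f : Lˣ) (U : Submodule ℚ (KQ L 2)) :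
    Submodule.span ℚ (Set.range fun u : Lˣ => sy f u) ⊓ U ≤
      Submodule.span ℚ {z | ∃ u : Lˣ, sy f u ∈ U ∧ z = sy f u} := by
  rintro z ⟨h1, h2⟩
  obtain ⟨q, u, rfl⟩ := span_sy f z h1
  by_cases hq : q = 0
  · rw [hq, zero_smul]; exact Submodule.zero_mem _
  · refine Submodule.smul_mem _ _ (Submodule.subset_span ⟨u, ?_, rfl⟩)
    have h3 := U.smul_mem q⁻¹ h2
    rwa [smul_smul, inv_mul_cancel₀ hq, one_smul] at h3

end general

variable {N E : Type*} [Field N] [CharZero N] [Field E] [Algebra N E]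

omit [CharZero N] in
theorem val_alg {v : Valuation E ℤᵐ⁰} (hv : v ∈ VN N E) {u : E} (hu : u ≠ 0) (halg : IsAlgebraic N u) : v u = 1 := by
  have hN : ∀ x : N, v (algebraMap N E x) ≤ 1 := by
    intro x
    by_cases hx : x = 0
    · rw [hx, map_zero, map_zero]; exact zero_le_one
    · rw [hv.2 x hx]
  have h1 := val_int v hN u halg.isIntegral
  have h2 := val_int v hN u⁻¹ halg.inv.isIntegral
  have h3 : v u * v u⁻¹ = 1 := by rw [← map_mul, mul_inv_cancel₀ hu, map_one]
  refine le_antisymm h1 ?_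
  rw [← h3]
  exact mul_le_of_le_one_right' h2

omit [CharZero N] in
theorem trans_inv {h : E} (hh : Transcendental N h) : Transcendental N h⁻¹ := by
  intro h1
  have := h1.inv
  rw [inv_inv] at this
  exact hh this

omit [CharZero N] in
theorem trans_sub {h : E} (hh : Transcendental N h) (η : N) : Transcendental N (h - algebraMap N E η) := by
  intro h1
  have h2 := h1.add (isAlgebraic_algebraMap (R := N) (A := E) η)
  rw [sub_add_cancel] at h2
  exact hh h2

theorem supp_finite (h : E) (hh : Transcendental N h) [FiniteDimensional N⟮h⟯ E] (u : E) (hu : u ≠ 0) :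
    {v ∈ VN N E | v u ≠ 1}.Finite := by
  by_cases halg : IsAlgebraic N u
  · convert Set.finite_empty
    ext v
    simp only [Set.mem_ofPred_eq, Set.mem_empty_iff_false, iff_false, not_and, not_not]
    exact fun hv => val_alg hv hu halg
  · have hu1 : Transcendental N u := halg
    have : FiniteDimensional N⟮u⟯ E := fin_adj h u hh hu1
    have : FiniteDimensional N⟮u⁻¹⟯ E := fin_adj h u⁻¹ hh (trans_inv hu1)
    refine ((finite_zeros u hu1).union (finite_zeros u⁻¹ (trans_inv hu1))).subset ?_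
    rintro v ⟨hv, hne⟩
    rcases lt_or_gt_of_ne hne with h1 | h1
    · exact Or.inl ⟨hv, h1⟩
    · refine Or.inr ⟨hv, ?_⟩
      rw [map_inv₀]
      exact inv_lt_one_of_one_lt₀ h1

omit [CharZero N] in
/-- a root of unity in the residue field comes from a root of unity in `N` -/
theorem exists_root (hprim : ∀ n : ℕ, 0 < n → ∃ ζ : N, IsPrimitiveRoot ζ n) (v : Valuation E ℤᵐ⁰)
    (h : E) (n : ℕ) (hn : 0 < n) (hv : v (h ^ n - 1) < 1) : ∃ η : N, Rt η ∧ v (h - algebraMap N E η) < 1 := by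
  classical
  obtain ⟨ζ, hζ⟩ := hprim n hn
  have hζE : IsPrimitiveRoot (algebraMap N E ζ) n := hζ.map_of_injective (algebraMap N E).injective
  have h1 : h ^ n - 1 = ∏ ω ∈ nthRootsFinset n (1 : E), (h - ω) := by
    have h2 := X_pow_sub_one_eq_prod hn hζE
    have h3 := congrArg (fun p => p.eval h) h2
    simpa [eval_prod] using h3
  rw [h1, map_prod] at hv
  by_contra hcon
  push Not at hcon
  refine absurd hv (not_lt.2 ?_)
  refine Finset.one_le_prod' fun ω hω => ?_
  have hω1 : ω ^ n = 1 := (mem_nthRootsFinset hn 1).1 hω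
  have : NeZero n := ⟨hn.ne'⟩
  obtain ⟨j, hj, h2⟩ := hζE.eq_pow_of_pow_eq_one hω1
  rw [← h2, ← map_pow]
  exact hcon _ ⟨n, hn, by rw [← pow_mul, mul_comm, pow_mul, hζ.pow_eq_one, one_pow]⟩

omit [CharZero N] in
theorem sub_ne {h : E} (hh : Transcendental N h) (η : N) : h - algebraMap N E η ≠ 0 := by
  intro h0
  exact trans_sub hh η (h0 ▸ isAlgebraic_zero)

/-- the subgroup of the entries `u` with `{f, u}` unramified -/
noncomputable def UU (N : Type*) {E : Type*} [Field N] [Field E] [Algebra N E] (h : Eˣ) : Subgroup Eˣ where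
  carrier := {u | ∀ v ∈ VN N E, sy h u ∈ unitPart v 2}
  one_mem' := fun v _ => by rw [sy_one_right]; exact Submodule.zero_mem _
  mul_mem' := fun {a b} ha hb v hv => by
    rw [sy_mul_right]
    exact Submodule.add_mem _ (ha v hv) (hb v hv)
  inv_mem' := fun {a} ha v hv => by
    rw [sy_inv_right]
    exact Submodule.neg_mem _ (ha v hv)

omit [CharZero N] in
theorem mem_UU {h u : Eˣ} : u ∈ UU N h ↔ ∀ v ∈ VN N E, sy h u ∈ unitPart v 2 := Iff.rfl

/-- the units which have value one at the valuations outside `T` -/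
noncomputable def WW (N : Type*) {E : Type*} [Field N] [Field E] [Algebra N E] (h : Eˣ)
    (T : Set (Valuation E ℤᵐ⁰)) : Subgroup Eˣ where
  carrier := {u | u ∈ UU N h ∧ ∀ v ∈ VN N E, v ∉ T → v (u : E) = 1}
  one_mem' := ⟨one_mem _, fun v _ _ => by rw [Units.val_one, map_one]⟩
  mul_mem' := fun {a b} ha hb => ⟨mul_mem ha.1 hb.1, fun v hv hT => by
    rw [Units.val_mul, map_mul, ha.2 v hv hT, hb.2 v hv hT, one_mul]⟩
  inv_mem' := fun {a} ha => ⟨inv_mem ha.1, fun v hv hT => by
    rw [Units.val_inv_eq_inv_val, map_inv₀, ha.2 v hv hT, inv_one]⟩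

/-- finite dimension from a finite set of valuations -/
theorem fin_of_T (h : Eˣ) (hh : Transcendental N (h : E)) [FiniteDimensional N⟮(h : E)⟯ E]
    (T : Set (Valuation E ℤᵐ⁰)) (hT : T.Finite)
    (hmain : ∀ u ∈ UU N h, ∃ u' ∈ WW N h T, sy h u = sy h u') :
    FiniteDimensional ℚ (Submodule.span ℚ {z | ∃ u : Eˣ, sy h u ∈ (⨅ v ∈ VN N E, unitPart v 2) ∧ z = sy h u}) := by
  classical
  have hTf : Finite T := hT
  let f : Additive (WW N h T) →+ KQ E 2 :=
    { toFun := fun u => sy h (u.toMul : Eˣ)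
      map_zero' := sy_one_right h
      map_add' := fun a b => sy_mul_right h _ _ }
  let g : Additive (WW N h T) →+ (T → ℚ) :=
    { toFun := fun u t => ((ord t.1 (u.toMul : Eˣ) : ℤ) : ℚ)
      map_zero' := by
        funext t
        show ((ord t.1 ((1 : WW N h T) : Eˣ) : ℤ) : ℚ) = 0
        rw [Subgroup.coe_one, ord_of_one (by rw [Units.val_one, map_one]), Int.cast_zero]
      map_add' := fun a b => by
        funext t
        show ((ord t.1 ((a.toMul * b.toMul : WW N h T) : Eˣ) : ℤ) : ℚ) = _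
        rw [Subgroup.coe_mul, ord_mul, Int.cast_add]
        rfl }
  have hfin := fin_of_ker f g (by
    intro a ha
    set u : Eˣ := (a.toMul : Eˣ) with hu
    have hmem : u ∈ WW N h T := a.toMul.2
    have hval : ∀ v ∈ VN N E, v (u : E) = 1 := by
      intro v hv
      by_cases hvT : v ∈ T
      · have h1 : ((ord v u : ℤ) : ℚ) = 0 := congrFun ha ⟨v, hvT⟩
        exact ord_eq_zero (by exact_mod_cast h1)
      · exact hmem.2 v hv hvT
    have halg : IsAlgebraic N (u : E) := by
      by_contra htr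
      have : FiniteDimensional N⟮(u : E)⟯ E := fin_adj (h : E) u hh htr
      obtain ⟨v, hv, hlt⟩ := exists_zero (u : E) htr
      rw [hval v hv] at hlt
      exact lt_irrefl _ hlt
    obtain ⟨v₀, hv₀, hlt⟩ := exists_zero (h : E) hh
    obtain ⟨n, hn, h1⟩ := tame_tors v₀ u h (unitPart_swap v₀ h u (hmem.1 v₀ hv₀)) (hval v₀ hv₀) hlt.ne
    have h2 : (u : E) ^ n - 1 = 0 := by
      by_contra h0
      have h3 := val_alg hv₀ h0 ((halg.pow n).sub isAlgebraic_one)
      rw [h3] at h1
      exact lt_irrefl _ h1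
    have h3 : u ^ n = 1 := by
      apply Units.ext
      rw [Units.val_pow_eq_pow_val, Units.val_one]
      exact sub_eq_zero.1 h2
    exact sy_tors_right h u n hn h3)
  refine Submodule.finiteDimensional_of_le (S₂ := Submodule.span ℚ (Set.range f)) ?_
  rw [Submodule.span_le]
  rintro z ⟨u, hu, rfl⟩
  obtain ⟨u', hu', heq⟩ := hmain u (fun v hv => by
    simp only [Submodule.mem_iInf] at hu
    exact hu v hv)
  rw [heq]
  exact Submodule.subset_span ⟨Additive.ofMul ⟨u', hu'⟩, rfl⟩

/-- reduction to a finite set of valuations -/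
theorem main_step (hprim : ∀ n : ℕ, 0 < n → ∃ ζ : N, IsPrimitiveRoot ζ n) (h : Eˣ)
    (hh : Transcendental N (h : E)) [FiniteDimensional N⟮(h : E)⟯ E] (T : Set (Valuation E ℤᵐ⁰))
    (hT : ∀ v ∈ VN N E, v ∉ T → v (h : E) = 1)
    (hT2 : ∀ v ∈ VN N E, v ∉ T → ∀ η : N, Rt η → v ((h : E) - algebraMap N E η) < 1 →
      v ((h : E) - algebraMap N E η) = WithZero.exp (-1 : ℤ) ∧
        ∀ v' ∈ VN N E, v' ((h : E) - algebraMap N E η) < 1 → v' = v)
    (u : Eˣ) (hu : u ∈ UU N h) : ∃ u' ∈ WW N h T, sy h u = sy h u' := by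
  classical
  -- the support
  have hsupp : {v ∈ VN N E | v ∉ T ∧ v (u : E) ≠ 1}.Finite :=
    (supp_finite (h : E) hh (u : E) u.ne_zero).subset fun v hv => ⟨hv.1, hv.2.2⟩
  have hroot : ∀ v : Valuation E ℤᵐ⁰, ∃ η : N, v ∈ {v ∈ VN N E | v ∉ T ∧ v (u : E) ≠ 1} →
      Rt η ∧ v ((h : E) - algebraMap N E η) < 1 := by
    intro v
    by_cases hv : v ∈ {v ∈ VN N E | v ∉ T ∧ v (u : E) ≠ 1}
    · obtain ⟨n, hn, h1⟩ := tame_tors v h u (hu v hv.1) (hT v hv.1 hv.2.1) hv.2.2
      obtain ⟨η, hη, h2⟩ := exists_root hprim v (h : E) n hn h1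
      exact ⟨η, fun _ => ⟨hη, h2⟩⟩
    · exact ⟨0, fun h => absurd h hv⟩
  choose rt hrt using hroot
  let SS : Finset (Valuation E ℤᵐ⁰) := hsupp.toFinset
  have hSS : ∀ v, v ∈ SS ↔ v ∈ {v ∈ VN N E | v ∉ T ∧ v (u : E) ≠ 1} := fun v => hsupp.mem_toFinset
  let fac : Valuation E ℤᵐ⁰ → Eˣ := fun v => Units.mk0 ((h : E) - algebraMap N E (rt v)) (sub_ne hh _)
  have hfac : ∀ v, (fac v : E) = (h : E) - algebraMap N E (rt v) := fun v => rfl
  have hsyfac : ∀ v ∈ SS, sy h (fac v) = 0 := by
    intro v hv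
    obtain ⟨⟨n, hn, h1⟩, -⟩ := hrt v ((hSS v).1 hv)
    have hne : algebraMap N E (rt v) ≠ 0 := by
      intro h0
      have h2 : rt v = 0 := (algebraMap N E).injective (by rw [h0, map_zero])
      rw [h2, zero_pow hn.ne'] at h1
      exact zero_ne_one h1
    refine sy_sub_root h (fac v) (Units.mk0 _ hne) n hn ?_ rfl
    apply Units.ext
    rw [Units.val_pow_eq_pow_val, Units.val_mk0, Units.val_one, ← map_pow, h1, map_one]
  have hsy : sy h (u * ∏ v ∈ SS, fac v ^ (ord v u)) = sy h u := by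
    rw [sy_mul_right, sy_prod_right, Finset.sum_eq_zero, add_zero]
    intro v hv
    rw [sy_zpow_right, hsyfac v hv, smul_zero]
  refine ⟨u * ∏ v ∈ SS, fac v ^ (ord v u), ⟨fun v hv => ?_, fun v hv hvT => ?_⟩, hsy.symm⟩
  · rw [hsy]
    exact hu v hv
  · -- the value of the product
    have hle : ∀ η : N, v ((h : E) - algebraMap N E η) ≤ 1 := by
      intro η
      refine (Valuation.map_sub v _ _).trans (max_le (hT v hv hvT).le ?_)
      by_cases h0 : η = 0
      · rw [h0, map_zero, map_zero]; exact zero_le_one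
      · rw [hv.2 η h0]
    have hother : ∀ w ∈ SS, w ≠ v → v (fac w : E) = 1 := by
      intro w hw hne
      obtain ⟨hη, h1⟩ := hrt w ((hSS w).1 hw)
      rw [hfac]
      refine le_antisymm (hle _) (not_lt.1 fun hlt => hne ?_)
      exact (hT2 v hv hvT (rt w) hη hlt).2 w ((hSS w).1 hw).1 h1
    rw [Units.val_mul, map_mul, Units.coe_prod, map_prod]
    by_cases hvS : v ∈ SS
    · rw [Finset.prod_eq_single v]
      · obtain ⟨hη, h1⟩ := hrt v ((hSS v).1 hvS)
        have h2 := (hT2 v hv hvT (rt v) hη h1).1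
        rw [Units.val_zpow_eq_zpow_val, map_zpow₀, hfac, h2, ← WithZero.exp_zsmul]
        have h3 : v (u : E) = WithZero.exp (ord v u) := (WithZero.exp_log (v_ne v u)).symm
        rw [h3, ← WithZero.exp_add, ← WithZero.exp_zero]
        congr 1
        rw [smul_eq_mul]
        ring
      · intro w hw hne
        rw [Units.val_zpow_eq_zpow_val, map_zpow₀, hother w hw hne, one_zpow]
      · intro h1
        exact absurd hvS h1
    · rw [Finset.prod_eq_one, mul_one]
      · by_contra h1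
        exact hvS ((hSS v).2 ⟨hv, hvT, h1⟩)
      · intro w hw
        rw [Units.val_zpow_eq_zpow_val, map_zpow₀, hother w hw (fun e => hvS (e ▸ hw)), one_zpow]

/-- the theorem over the fields generated by roots of unity, for functions which are not powers -/
theorem fin_N (hN : CycF N) (h : Eˣ) (hh : Transcendental N (h : E)) [FiniteDimensional N⟮(h : E)⟯ E]
    (hpow : ¬ ∃ (r : E) (q : ℕ), 2 ≤ q ∧ r ^ q = h) :
    FiniteDimensional ℚ (Submodule.span ℚ {z | ∃ u : Eˣ, sy h u ∈ (⨅ v ∈ VN N E, unitPart v 2) ∧ z = sy h u}) := by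
  classical
  have halg : Algebra.IsAlgebraic ℚ N := hN.normal.toIsAlgebraic
  obtain ⟨y, G, hG, hGn, hint, htop, hroot⟩ := exists_prim (h : E) hh
  have hn : 0 < G.natDegree := by
    rw [hGn]
    exact Module.finrank_pos
  have hbad : {η : N | Rt η ∧ ¬ Irreducible (G.map (evalRingHom η))}.Finite := by
    by_contra hinf
    obtain ⟨a, ha, A, B, hA, hB, hA0, hB0, hAB⟩ := dz hN G hG hn hint hinf
    exact hpow (pow_of_red hN.prim (h : E) y h.ne_zero htop G hGn hroot a ha A B hA hB hA0 hB0 hG hAB)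
  have hGy : ev (N := N) (h : E) y G = 0 := by
    rw [ev_map]
    exact hroot
  let T : Set (Valuation E ℤᵐ⁰) := ({v ∈ VN N E | v (h : E) < 1} ∪ {v ∈ VN N E | v (h : E)⁻¹ < 1}) ∪
    ⋃ η ∈ {η : N | Rt η ∧ ¬ Irreducible (G.map (evalRingHom η))}, {v ∈ VN N E | v ((h : E) - algebraMap N E η) < 1}
  have hTfin : T.Finite := by
    refine Set.Finite.union (Set.Finite.union (finite_zeros _ hh) ?_) (hbad.biUnion fun η _ => ?_)
    · have : FiniteDimensional N⟮(h : E)⁻¹⟯ E := fin_adj (h : E) _ hh (trans_inv hh)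
      exact finite_zeros _ (trans_inv hh)
    · have : FiniteDimensional N⟮(h : E) - algebraMap N E η⟯ E := fin_adj (h : E) _ hh (trans_sub hh η)
      exact finite_zeros _ (trans_sub hh η)
  refine fin_of_T h hh T hTfin (main_step hN.prim h hh T ?_ ?_)
  · intro v hv hvT
    by_contra hne
    apply hvT
    refine Or.inl ?_
    rcases lt_or_gt_of_ne hne with h1 | h1
    · exact Or.inl ⟨hv, h1⟩
    · refine Or.inr ⟨hv, ?_⟩
      rw [map_inv₀]
      exact inv_lt_one_of_one_lt₀ h1
  · intro v hv hvT η hη hlt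
    have hirr : Irreducible (red η G) := by
      by_contra hcon
      apply hvT
      refine Or.inr ?_
      rw [Set.mem_iUnion₂]
      exact ⟨η, ⟨hη, hcon⟩, hv, hlt⟩
    obtain ⟨h1, h2⟩ := uniq (h : E) y η G hG hGy hirr htop
    exact ⟨h1 v hv hlt, fun v' hv' hlt' => h2 v' hv' hlt' v hv hlt⟩

end Pool.Agent.Helper79.FE
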