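import Pool.Agent.Helper79.FE.Val3

set_option autoImplicit false

/-!
# Primitive elements with integral equations
-/

namespace Pool.Agent.Helper79.FE

open scoped IntermediateField.algebraAdjoinAdjoin
open Polynomial IntermediateField Module

theorem adjoin_mul_top {F E : Type*} [Field F] [Field E] [Algebra F E] (c : F) (hc : c ≠ 0) (y : E)
    (hy : F⟮y⟯ = ⊤) : F⟮algebraMap F E c * y⟯ = ⊤ := by
  rw [eq_top_iff, ← hy, adjoin_simple_le_iff]
  have h1 : y = algebraMap F E c⁻¹ * (algebraMap F E c * y) := by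
    rw [← mul_assoc, ← map_mul, inv_mul_cancel₀ hc, map_one, one_mul]
  have h2 : algebraMap F E c⁻¹ * (algebraMap F E c * y) ∈ F⟮algebraMap F E c * y⟯ :=
    mul_mem (IntermediateField.algebraMap_mem _ _) (mem_adjoin_simple_self _ _)
  rwa [← h1] at h2

theorem prim_aux {B F E : Type*} [CommRing B] [IsDomain B] [IsIntegrallyClosed B] [Field F] [Field E]
    [Algebra B F] [IsFractionRing B F] [Algebra F E] [Algebra B E] [IsScalarTower B F E] [FiniteDimensional F E]
    [Algebra.IsSeparable F E] :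
    ∃ (y : E) (p : B[X]), p.Monic ∧ p.natDegree = finrank F E ∧ F⟮y⟯ = ⊤ ∧ aeval y p = 0 := by
  obtain ⟨y₀, hy₀⟩ := Field.exists_primitive_element F E
  have halg : IsAlgebraic B y₀ := by
    rw [IsFractionRing.isAlgebraic_iff B F E]
    exact Algebra.IsAlgebraic.isAlgebraic y₀
  obtain ⟨b, hb, hint⟩ := halg.exists_integral_multiple
  have hbF : algebraMap B F b ≠ 0 := (map_ne_zero_iff _ (IsFractionRing.injective B F)).2 hb
  have h1 : b • y₀ = algebraMap F E (algebraMap B F b) * y₀ := by
    rw [Algebra.smul_def, IsScalarTower.algebraMap_apply B F E]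
  refine ⟨b • y₀, minpoly B (b • y₀), minpoly.monic hint, ?_, ?_, minpoly.aeval _ _⟩
  · have h2 := minpoly.isIntegrallyClosed_eq_field_fractions' F hint
    have h3 : (minpoly F (b • y₀)).natDegree = finrank F E := by
      rw [← IntermediateField.adjoin.finrank (IsIntegral.of_finite F _), h1, adjoin_mul_top _ hbF _ hy₀]
      exact IntermediateField.finrank_top'
    rw [h2, (minpoly.monic hint).natDegree_map] at h3
    exact h3
  · rw [h1]
    exact adjoin_mul_top _ hbF _ hy₀

variable {N E : Type*} [Field N] [CharZero N] [Field E] [Algebra N E]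

theorem int_mult [Algebra.IsAlgebraic ℚ N] (s : Finset N) : ∃ δ : ℤ, δ ≠ 0 ∧ ∀ x ∈ s, IsIntegral ℤ ((δ : N) * x) := by
  classical
  induction s using Finset.induction_on with
  | empty => exact ⟨1, one_ne_zero, fun x hx => absurd hx (Finset.notMem_empty x)⟩
  | insert a s ha ih =>
    obtain ⟨δ, hδ, h⟩ := ih
    have halg : IsAlgebraic ℤ a :=
      (IsFractionRing.isAlgebraic_iff ℤ ℚ N).2 (Algebra.IsAlgebraic.isAlgebraic (R := ℚ) a)
    obtain ⟨n, hn, hi⟩ := halg.exists_integral_multiple
    refine ⟨n * δ, mul_ne_zero hn hδ, fun x hx => ?_⟩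
    rcases Finset.mem_insert.1 hx with rfl | hx
    · have h1 : ((n * δ : ℤ) : N) * x = (δ : N) * (n • x) := by
        rw [zsmul_eq_mul]; push_cast; ring
      rw [h1]
      exact (isIntegral_algebraMap (R := ℤ) (A := N) (x := δ)).mul hi
    · have h1 : ((n * δ : ℤ) : N) * x = (n : N) * ((δ : N) * x) := by
        push_cast; ring
      rw [h1]
      exact (isIntegral_algebraMap (R := ℤ) (A := N) (x := n)).mul (h x hx)

theorem exists_prim [Algebra.IsAlgebraic ℚ N] (h : E) (hh : Transcendental N h) [FiniteDimensional N⟮h⟯ E] :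
    ∃ (y : E) (G : N[X][X]), G.Monic ∧ G.natDegree = finrank N⟮h⟯ E ∧
      (∀ i j, IsIntegral ℤ ((G.coeff i).coeff j)) ∧ (N⟮h⟯)⟮y⟯ = ⊤ ∧
      (G.map (eval₂RingHom (algebraMap N E) h)).eval y = 0 := by
  classical
  have hpid := pid_adjoin h hh
  have hsep : Algebra.IsSeparable N⟮h⟯ E := by
    have : CharZero N⟮h⟯ := charZero_of_injective_algebraMap (algebraMap N N⟮h⟯).injective
    infer_instance
  obtain ⟨y, p, hp, hpn, hy, hpy⟩ := prim_aux (B := Algebra.adjoin N {h}) (F := N⟮h⟯) (E := E)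
  let e : N[X] ≃ₐ[N] Algebra.adjoin N {h} := Polynomial.algEquivOfTranscendental N h hh
  set G₁ : N[X][X] := p.map (e.symm : Algebra.adjoin N {h} →+* N[X]) with hG₁
  have hG₁m : G₁.Monic := hp.map _
  have hG₁n : G₁.natDegree = finrank N⟮h⟯ E := by rw [hG₁, hp.natDegree_map, hpn]
  have hG₁y : (G₁.map (eval₂RingHom (algebraMap N E) h)).eval y = 0 := by
    have h1 : (eval₂RingHom (algebraMap N E) h).comp (e.symm : Algebra.adjoin N {h} →+* N[X]) =
        algebraMap (Algebra.adjoin N {h}) E := by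
      ext x
      obtain ⟨q, rfl⟩ := e.surjective x
      show eval₂ (algebraMap N E) h (e.symm (e q)) = ((e q : Algebra.adjoin N {h}) : E)
      rw [e.symm_apply_apply]
      have h2 := DFunLike.congr_fun (Polynomial.algEquivOfTranscendental_coe N h hh) q
      have h3 : e q = aeval (⟨h, Algebra.self_mem_adjoin_singleton N h⟩ : Algebra.adjoin N {h}) q := h2
      rw [h3]
      exact aeval_algebraMap_apply E (⟨h, Algebra.self_mem_adjoin_singleton N h⟩ : Algebra.adjoin N {h}) q
    rw [hG₁, Polynomial.map_map, h1, eval_map_algebraMap]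
    exact hpy
  obtain ⟨δ, hδ, hδ2⟩ := int_mult ((Finset.range G₁.natDegree).biUnion fun i => (G₁.coeff i).support.image
    fun j => (G₁.coeff i).coeff j)
  have hδN : (δ : N) ≠ 0 := by exact_mod_cast hδ
  have hδint : IsIntegral ℤ (δ : N) := isIntegral_algebraMap (R := ℤ) (A := N) (x := δ)
  refine ⟨algebraMap N E δ * y, scaleRoots G₁ (C (δ : N)), (monic_scaleRoots_iff _).2 hG₁m, by
    rw [natDegree_scaleRoots, hG₁n], fun i j => ?_, ?_, ?_⟩
  · rw [coeff_scaleRoots, ← C_pow, coeff_mul_C]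
    rcases lt_trichotomy i G₁.natDegree with hi | hi | hi
    · by_cases h0 : (G₁.coeff i).coeff j = 0
      · rw [h0, zero_mul]; exact isIntegral_zero
      · obtain ⟨r, hr⟩ : ∃ r, G₁.natDegree - i = r + 1 := ⟨G₁.natDegree - i - 1, by omega⟩
        rw [hr, pow_succ, mul_comm, mul_assoc]
        refine (hδint.pow r).mul (hδ2 _ ?_)
        rw [Finset.mem_biUnion]
        exact ⟨i, Finset.mem_range.2 hi, Finset.mem_image.2 ⟨j, mem_support_iff.2 h0, rfl⟩⟩
    · rw [hi, Nat.sub_self, pow_zero, mul_one]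
      have h1 : G₁.coeff G₁.natDegree = 1 := hG₁m
      rw [h1, coeff_one]
      split_ifs
      · exact isIntegral_one
      · exact isIntegral_zero
    · rw [coeff_eq_zero_of_natDegree_lt hi, coeff_zero, zero_mul]
      exact isIntegral_zero
  · have h1 : algebraMap N E δ = algebraMap N⟮h⟯ E (algebraMap N N⟮h⟯ δ) := rfl
    rw [h1]
    exact adjoin_mul_top _ ((map_ne_zero_iff _ (algebraMap N N⟮h⟯).injective).2 hδN) _ hy
  · rw [eval_map] at hG₁y ⊢
    have h1 := scaleRoots_eval₂_eq_zero (eval₂RingHom (algebraMap N E) h) (s := C (δ : N)) hG₁y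
    have h2 : (eval₂RingHom (algebraMap N E) h) (C (δ : N)) = algebraMap N E δ := by simp
    rwa [h2] at h1

end Pool.Agent.Helper79.FE
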