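import Pool.Graph.R_pool_sql_team_seeded_620a6dc7.Helper537_Sym.Tame

set_option autoImplicit false

/-!
# Symbols in the unit part; a lemma on finite dimension
-/

namespace Pool.Agent.Helper79.FE

open scoped WithZero
open Pool.Agent.TH826.MK (KQ symb unitPart)
open Pool.Agent.Helper537_Sym

/-- additive functions on a subgroup of a commutative group extend (from the library module Helper537_All/Res) -/
theorem exists_extend {A B : Type*} [CommGroup A] [CommGroup B] (φ : A →* B)
    (hφ : Function.Injective φ) (χ : A → ℚ) (hχ : ∀ a b, χ (a * b) = χ a + χ b) :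
    ∃ ψ : B → ℚ, (∀ a b, ψ (a * b) = ψ a + ψ b) ∧ ∀ a, ψ (φ a) = χ a := by
  have hχ1 : χ 1 = 0 := by
    have := hχ 1 1
    rw [one_mul] at this
    linarith
  let g : Additive A →+ ℚ :=
    { toFun := fun p => χ p.toMul
      map_zero' := hχ1
      map_add' := fun a b => hχ _ _ }
  obtain ⟨h, hh⟩ := Module.Baer.extension_property_addMonoidHom (Module.Baer.of_divisible ℚ)
    (MonoidHom.toAdditive φ) hφ g
  refine ⟨fun b => h (Additive.ofMul b), fun a b => ?_, fun a => ?_⟩
  · show h (Additive.ofMul (a * b)) = h (Additive.ofMul a) + h (Additive.ofMul b)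
    rw [ofMul_mul, map_add]
  · exact DFunLike.congr_fun hh (Additive.ofMul a)

/-- an element of infinite order is detected by an additive function -/
theorem exists_detect {B : Type*} [CommGroup B] (u : B) (hu : ∀ n : ℕ, u ^ n = 1 → n = 0) :
    ∃ ψ : B → ℚ, (∀ a b, ψ (a * b) = ψ a + ψ b) ∧ ψ u = 1 := by
  obtain ⟨ψ, h1, h2⟩ := exists_extend (zpowersHom B u) (by
    rw [injective_iff_map_eq_one]
    intro n hn
    rw [zpowersHom_apply] at hn
    obtain ⟨k, hk | hk⟩ := (Multiplicative.toAdd n).eq_nat_or_neg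
    · rw [hk, zpow_natCast] at hn
      have h0 := hu k hn
      rw [h0] at hk
      exact hk
    · rw [hk, zpow_neg, inv_eq_one, zpow_natCast] at hn
      have h0 := hu k hn
      rw [h0] at hk
      exact hk) (fun n => ((Multiplicative.toAdd n : ℤ) : ℚ)) (fun a b => by
        rw [toAdd_mul, Int.cast_add])
  refine ⟨ψ, h1, ?_⟩
  have h3 := h2 (Multiplicative.ofAdd 1)
  rw [zpowersHom_apply, toAdd_ofAdd, zpow_one, Int.cast_one] at h3
  exact h3

variable {L : Type*} [Field L]

/-- a symbol with trivial tame symbol: the value of the unit entry is a torsion element -/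
theorem tame_tors (v : Valuation L ℤᵐ⁰) (a b : Lˣ) (h : sy a b ∈ unitPart v 2) (ha : v (a : L) = 1)
    (hb : v (b : L) ≠ 1) : ∃ n : ℕ, 0 < n ∧ v ((a : L) ^ n - 1) < 1 := by
  by_contra hcon
  push Not at hcon
  obtain ⟨ψ, hψ1, hψ2⟩ := exists_detect (B := Lˣ ⧸ oneUnits v) (QuotientGroup.mk a) (by
    intro n hn
    by_contra h0
    have h1 : ((a ^ n : Lˣ) : Lˣ ⧸ oneUnits v) = 1 := hn
    rw [QuotientGroup.eq_one_iff] at h1
    have h2 : v (((a ^ n : Lˣ) : L) - 1) < 1 := h1
    rw [Units.val_pow_eq_pow_val] at h2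
    exact absurd h2 (not_lt.2 (hcon n (Nat.pos_of_ne_zero h0))))
  have hadd : ∀ x y : Lˣ, ψ (QuotientGroup.mk (x * y)) = ψ (QuotientGroup.mk x) + ψ (QuotientGroup.mk y) :=
    fun x y => hψ1 (QuotientGroup.mk x) (QuotientGroup.mk y)
  have hψ0 : ψ (QuotientGroup.mk 1) = 0 := by
    have := hadd 1 1
    rw [one_mul] at this
    linarith
  let l : Lg L := ⟨fun x => ψ (QuotientGroup.mk x), hadd⟩
  have hl : ∀ x : Lˣ, v ((x : L) - 1) < 1 → l.toFun x = 0 := by
    intro x hx
    have h1 : (x : Lˣ ⧸ oneUnits v) = ((1 : Lˣ) : Lˣ ⧸ oneUnits v) := (QuotientGroup.eq_one_iff x).2 hx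
    show ψ (QuotientGroup.mk x) = 0
    rw [h1]
    exact hψ0
  have h1 := tame_unitPart v l hl h
  have hla : l.toFun a = 1 := hψ2
  rw [tame_sy, ord_of_one ha, hla, Int.cast_zero, zero_mul, sub_zero, mul_one] at h1
  exact hb (ord_eq_zero (by exact_mod_cast h1))

theorem unitPart_swap (v : Valuation L ℤᵐ⁰) (a b : Lˣ) (h : sy a b ∈ unitPart v 2) : sy b a ∈ unitPart v 2 := by
  rw [sy_swap]
  exact Submodule.neg_mem _ h

/-- the symbols with a torsion entry vanish -/
theorem sy_tors_right (a b : Lˣ) (n : ℕ) (hn : 0 < n) (hb : b ^ n = 1) : sy a b = 0 := by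
  have h := sy_pow_right a b n
  rw [hb, sy_one_right] at h
  exact eq_zero_of_two_smul (by exact_mod_cast hn.ne') h.symm

/-- `{h, h - η} = 0` for a root of unity `η` -/
theorem sy_sub_root (h u η : Lˣ) (n : ℕ) (hn : 0 < n) (hη : η ^ n = 1) (hu : (u : L) = h - η) : sy h u = 0 := by
  -- `1 - h / η`
  set w : Lˣ := -u * η⁻¹ with hw
  have h1 : sy (h * η⁻¹) w = 0 := by
    refine sy_steinberg ?_
    rw [hw, Units.val_mul, Units.val_mul, Units.val_neg, hu, Units.val_inv_eq_inv_val]
    have := η.ne_zero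
    field_simp
    ring
  have h2 : sy η⁻¹ w = 0 := by
    rw [sy_swap, sy_tors_right w η⁻¹ n hn (by rw [inv_pow, hη, inv_one]), neg_zero]
  rw [sy_mul_left, h2, add_zero, hw, sy_mul_right, sy_neg_right,
    sy_tors_right h η⁻¹ n hn (by rw [inv_pow, hη, inv_one]), add_zero] at h1
  exact h1

/-- a lemma on finite dimension -/
theorem fin_of_ker {A V T : Type*} [AddCommGroup A] [AddCommGroup V] [Module ℚ V] [Finite T] (f : A →+ V)
    (g : A →+ (T → ℚ)) (h : ∀ a, g a = 0 → f a = 0) :
    FiniteDimensional ℚ (Submodule.span ℚ (Set.range f)) := by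
  classical
  obtain ⟨b, hb, hspan, hli⟩ := exists_linearIndependent ℚ (Set.range f)
  rw [← hspan]
  choose a ha using fun x : b => hb x.2
  have hli2 : LinearIndependent ℚ (fun x : b => g (a x)) := by
    rw [← LinearIndependent.iff_fractionRing ℤ ℚ] at hli ⊢
    rw [linearIndependent_iff'] at hli ⊢
    intro s c hc i hi
    refine hli s c ?_ i hi
    have h1 : g (∑ x ∈ s, c x • a x) = 0 := by
      rw [map_sum, ← hc]
      exact Finset.sum_congr rfl fun x _ => map_zsmul g _ _
    have h2 := h _ h1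
    rw [map_sum] at h2
    rw [← h2]
    refine Finset.sum_congr rfl fun x _ => ?_
    rw [map_zsmul, ha]
  have hfin : Finite b := hli2.finite
  exact FiniteDimensional.span_of_finite ℚ (Set.toFinite b)

end Pool.Agent.Helper79.FE
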