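import Mathlib

set_option autoImplicit false

/-!
# Discrete valuations of function fields of one variable, trivial on the constants
-/

namespace Pool.Agent.Helper79.FE

open scoped WithZero IntermediateField.algebraAdjoinAdjoin
open IsDedekindDomain Polynomial IntermediateField Module

/-- the normalized discrete valuations of `E`, trivial on `N` -/
def VN (N E : Type*) [Field N] [Field E] [Algebra N E] : Set (Valuation E ℤᵐ⁰) :=
  {v | Function.Surjective v ∧ ∀ x : N, x ≠ 0 → v (algebraMap N E x) = 1}

variable {N E : Type*} [Field N] [CharZero N] [Field E] [Algebra N E]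

omit [CharZero N] in
theorem fg_aux (F F' : IntermediateField N E) [FiniteDimensional F E] [Algebra.IsAlgebraic F' E]
    (S₀ : Set E) (hS₀ : S₀.Finite) (hF : F ≤ IntermediateField.adjoin N S₀) : FiniteDimensional F' E := by
  classical
  let b := Module.finBasis F E
  have hfin : (S₀ ∪ Set.range b).Finite := hS₀.union (Set.finite_range b)
  have : Finite ↥(S₀ ∪ Set.range b) := hfin
  have hfd : FiniteDimensional F' (IntermediateField.adjoin F' (S₀ ∪ Set.range b)) :=
    IntermediateField.finiteDimensional_adjoin fun x _ => (Algebra.IsAlgebraic.isAlgebraic x).isIntegral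
  have hmem : ∀ x : E, x ∈ IntermediateField.adjoin N S₀ →
      x ∈ IntermediateField.adjoin F' (S₀ ∪ Set.range b) := by
    intro x hx
    induction hx using IntermediateField.adjoin_induction with
    | mem x hx => exact IntermediateField.subset_adjoin _ _ (Or.inl hx)
    | algebraMap x =>
      rw [IsScalarTower.algebraMap_apply N F' E]
      exact IntermediateField.algebraMap_mem _ _
    | add x y _ _ h1 h2 => exact add_mem h1 h2
    | mul x y _ _ h1 h2 => exact mul_mem h1 h2
    | inv x _ h => exact inv_mem h
  have htop : IntermediateField.adjoin F' (S₀ ∪ Set.range b) = ⊤ := by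
    rw [eq_top_iff]
    intro x _
    rw [← b.sum_repr x]
    refine sum_mem fun i _ => ?_
    rw [Algebra.smul_def]
    have h1 : algebraMap F E (b.repr x i) ∈ IntermediateField.adjoin F' (S₀ ∪ Set.range b) :=
      hmem _ (hF (b.repr x i).2)
    have h2 : b i ∈ IntermediateField.adjoin F' (S₀ ∪ Set.range b) :=
      IntermediateField.subset_adjoin _ _ (Or.inr ⟨i, rfl⟩)
    exact mul_mem h1 h2
  rw [htop] at hfd
  exact LinearEquiv.finiteDimensional (IntermediateField.topEquiv (F := F') (E := E)).toLinearEquiv

omit [CharZero N] in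
/-- the function field is finite over every transcendental element -/
theorem fin_adj (h a : E) (hh : Transcendental N h) (ha : Transcendental N a) [FiniteDimensional N⟮h⟯ E] :
    FiniteDimensional N⟮a⟯ E := by
  classical
  -- the transcendence degree is one
  have hhi : AlgebraicIndependent N (fun _ : Unit => h) := algebraicIndependent_unique_type_iff.2 hh
  have hai : AlgebraicIndependent N (fun _ : Unit => a) := algebraicIndependent_unique_type_iff.2 ha
  have halg : Algebra.IsAlgebraic N⟮h⟯ E := inferInstance
  have hbas : IsTranscendenceBasis N (fun _ : Unit => h) := by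
    rw [hhi.isTranscendenceBasis_iff_isAlgebraic]
    have h1 : Set.range (fun _ : Unit => h) = {h} := by simp
    rw [h1]
    exact Algebra.IsAlgebraic.trans (Algebra.adjoin N {h}) N⟮h⟯ E
  have htr := hbas.lift_cardinalMk_eq_trdeg
  have hbas2 : IsTranscendenceBasis N (fun _ : Unit => a) := by
    refine hai.isTranscendenceBasis_of_lift_trdeg_le_of_finite ?_
    rw [← Cardinal.lift_id (Algebra.trdeg N E), Cardinal.lift_id, ← htr]
  have halg2 : Algebra.IsAlgebraic N⟮a⟯ E := by
    have h1 := hbas2.isAlgebraic_field
    have h2 : Set.range (fun _ : Unit => a) = {a} := by simp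
    rwa [h2] at h1
  exact fg_aux N⟮h⟯ N⟮a⟯ {h} (Set.finite_singleton h) le_rfl

section ded

variable (w : E) (hw : Transcendental N w)

include hw in
omit [CharZero N] in
theorem pid_adjoin : IsPrincipalIdealRing (Algebra.adjoin N {w}) := by
  let e : N[X] ≃ₐ[N] Algebra.adjoin N {w} := Polynomial.algEquivOfTranscendental N w hw
  exact IsPrincipalIdealRing.of_surjective e.toRingHom e.surjective

include hw in
theorem ded_closure [FiniteDimensional N⟮w⟯ E] :
    IsDedekindDomain (integralClosure (Algebra.adjoin N {w}) E) ∧
      IsFractionRing (integralClosure (Algebra.adjoin N {w}) E) E := by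
  have hpid := pid_adjoin w hw
  have hsep : Algebra.IsSeparable N⟮w⟯ E := by
    have : CharZero N⟮w⟯ := charZero_of_injective_algebraMap (algebraMap N N⟮w⟯).injective
    infer_instance
  exact ⟨integralClosure.isDedekindDomain (Algebra.adjoin N {w}) N⟮w⟯ E,
    integralClosure.isFractionRing_of_finite_extension N⟮w⟯ E⟩

include hw in
/-- a transcendental element of a function field of one variable has a zero -/
theorem exists_zero [FiniteDimensional N⟮w⟯ E] : ∃ v ∈ VN N E, v w < 1 := by
  let B := Algebra.adjoin N {w}
  let e : N[X] ≃ₐ[N] B := Polynomial.algEquivOfTranscendental N w hw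
  obtain ⟨hded, hfrac⟩ := ded_closure w hw
  have hwB : w ∈ B := Algebra.self_mem_adjoin_singleton N w
  have heX : e X = ⟨w, hwB⟩ := Polynomial.algEquivOfTranscendental_apply_X N w hw
  have hnu : (⟨w, hwB⟩ : B) ∈ nonunits B := by
    intro hu
    rw [← heX] at hu
    have h1 := hu.map e.symm
    rw [AlgEquiv.symm_apply_apply] at h1
    exact Polynomial.not_isUnit_X h1
  obtain ⟨m, hm, hwm⟩ := exists_max_ideal_of_mem_nonunits hnu
  obtain ⟨Q, hQ, hQm⟩ := Ideal.exists_ideal_over_maximal_of_isIntegral
    (S := integralClosure B E) m (by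
      rw [(RingHom.injective_iff_ker_eq_bot _).1
        (FaithfulSMul.algebraMap_injective B (integralClosure B E))]
      exact bot_le)
  have hw0 : w ≠ 0 := by
    rintro rfl
    exact hw (isAlgebraic_zero)
  have hwQ : algebraMap B (integralClosure B E) ⟨w, hwB⟩ ∈ Q := by
    rw [← hQm] at hwm
    exact hwm
  have hQ0 : Q ≠ ⊥ := by
    rintro rfl
    rw [Ideal.mem_bot] at hwQ
    have h2 := congrArg (fun z : integralClosure B E => (z : E)) hwQ
    exact hw0 h2
  let P : HeightOneSpectrum (integralClosure B E) := ⟨Q, hQ.isPrime, hQ0⟩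
  refine ⟨P.valuation E, ⟨P.valuation_surjective E, ?_⟩, ?_⟩
  · have h1 : ∀ q : N, P.valuation E (algebraMap N E q) ≤ 1 := by
      intro q
      exact P.valuation_le_one (K := E) (algebraMap B (integralClosure B E) (algebraMap N B q))
    intro q hq
    refine le_antisymm (h1 q) ?_
    have h2 := h1 q⁻¹
    have h3 : P.valuation E (algebraMap N E q) * P.valuation E (algebraMap N E q⁻¹) = 1 := by
      rw [← map_mul, ← map_mul, mul_inv_cancel₀ hq, map_one, map_one]
    calc (1 : ℤᵐ⁰) = P.valuation E (algebraMap N E q) * P.valuation E (algebraMap N E q⁻¹) :=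
          h3.symm
      _ ≤ P.valuation E (algebraMap N E q) * 1 := mul_le_mul_right h2 _
      _ = _ := mul_one _
  · exact (P.valuation_lt_one_iff_mem (K := E)
      (algebraMap B (integralClosure B E) ⟨w, hwB⟩)).2 hwQ

end ded

end Pool.Agent.Helper79.FE
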