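import Mathlib

set_option autoImplicit false

/-!
# A normalized discrete valuation is determined by its centre on a Dedekind domain
-/

namespace Pool.Agent.Helper79.FE

open scoped WithZero
open IsDedekindDomain

/-- a normalized discrete valuation is determined by its centre on a Dedekind domain -/
theorem val_det {C F : Type*} [CommRing C] [IsDedekindDomain C] [Field F] [Algebra C F] [IsFractionRing C F]
    (P : Ideal C) (hP : P.IsPrime) (hP0 : P ≠ ⊥) : ∃ k : F → ℤ, ∀ v : Valuation F ℤᵐ⁰, Function.Surjective v →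
      (∀ c : C, v (algebraMap C F c) ≤ 1) → (∀ c : C, v (algebraMap C F c) < 1 ↔ c ∈ P) →
      ∀ x : F, x ≠ 0 → v x = WithZero.exp (k x) := by
  classical
  have hPp : Prime P := Ideal.prime_of_isPrime hP0 hP
  have hsplit : ∀ I : Ideal C, I ≠ ⊥ → ∃ (k : ℕ) (J : Ideal C), I = P ^ k * J ∧ ¬ J ≤ P := by
    intro I hI
    obtain ⟨J, hJ, h1⟩ := (FiniteMultiplicity.of_prime_left hPp hI).exists_eq_pow_mul_and_not_dvd
    exact ⟨_, J, hJ, fun h => h1 (Ideal.dvd_iff_le.2 h)⟩
  -- the uniformizer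
  obtain ⟨ϖ, hϖ1, hϖ2⟩ : ∃ ϖ ∈ P, ϖ ∉ P ^ 2 := by
    by_contra hcon
    push Not at hcon
    have h1 : P ≤ P ^ 2 := fun x hx => hcon x hx
    have h2 : P ^ 2 ∣ P ^ 1 := by rw [pow_one]; exact Ideal.dvd_iff_le.2 h1
    have h3 := (pow_dvd_pow_iff hPp.ne_zero hPp.not_isUnit).1 h2
    omega
  have hϖ0 : ϖ ≠ 0 := by
    rintro rfl
    exact hϖ2 (zero_mem _)
  obtain ⟨j', hj', hj'P⟩ : ∃ j' : C, j' ∉ P ∧ ∀ (k : ℕ) (c : C), c ∈ P ^ k → ϖ ^ k ∣ j' ^ k * c := by
    obtain ⟨k, J, hJ, hJP⟩ := hsplit (Ideal.span {ϖ}) (by rwa [Ne, Ideal.span_singleton_eq_bot])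
    have hk : k = 1 := by
      rcases Nat.lt_trichotomy k 1 with h1 | h1 | h1
      · have h0 : k = 0 := by omega
        rw [h0, pow_zero, one_mul] at hJ
        exact absurd ((Ideal.span_singleton_le_iff_mem P).2 hϖ1) (by rw [hJ]; exact hJP)
      · exact h1
      · exfalso
        apply hϖ2
        have h2 : ϖ ∈ Ideal.span {ϖ} := Ideal.mem_span_singleton_self ϖ
        rw [hJ] at h2
        have h3 : ϖ ∈ P ^ k := (Ideal.mul_le_left : P ^ k * J ≤ P ^ k) h2
        exact Ideal.pow_le_pow_right (show 2 ≤ k by omega) h3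
    rw [hk, pow_one] at hJ
    obtain ⟨j', hj1, hj2⟩ := Set.not_subset.1 hJP
    refine ⟨j', hj2, fun k c hc => ?_⟩
    rw [← Ideal.mem_span_singleton, ← Ideal.span_singleton_pow, hJ, mul_pow, mul_comm (P ^ k)]
    exact Ideal.mul_mem_mul (Ideal.pow_mem_pow hj1 k) hc
  have hk : ∀ c : C, ∃ k : ℕ, c ≠ 0 → ∀ v : Valuation F ℤᵐ⁰, (∀ c : C, v (algebraMap C F c) ≤ 1) →
      (∀ c : C, v (algebraMap C F c) < 1 ↔ c ∈ P) → v (algebraMap C F c) = v (algebraMap C F ϖ) ^ k := by
    intro c
    by_cases hc : c = 0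
    · exact ⟨0, fun h => absurd hc h⟩
    obtain ⟨k, J, hJ, hJP⟩ := hsplit (Ideal.span {c}) (by rwa [Ne, Ideal.span_singleton_eq_bot])
    obtain ⟨j, hj1, hj2⟩ := Set.not_subset.1 hJP
    refine ⟨k, fun _ v hv1 hv2 => ?_⟩
    have hunit : ∀ x : C, x ∉ P → v (algebraMap C F x) = 1 := fun x hx =>
      le_antisymm (hv1 x) (not_lt.1 fun h => hx ((hv2 x).1 h))
    apply le_antisymm
    · have h1 : c ∈ P ^ k := by
        have h2 : c ∈ Ideal.span {c} := Ideal.mem_span_singleton_self c
        rw [hJ] at h2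
        exact (Ideal.mul_le_left : P ^ k * J ≤ P ^ k) h2
      obtain ⟨d, hd⟩ := hj'P k c h1
      have h3 := congrArg (fun x => v (algebraMap C F x)) hd
      simp only [map_mul, map_pow] at h3
      rw [hunit j' hj', one_pow, one_mul] at h3
      rw [h3]
      exact mul_le_of_le_one_right' (hv1 d)
    · have h1 : ϖ ^ k * j ∈ Ideal.span {c} := by
        rw [hJ]
        exact Ideal.mul_mem_mul (Ideal.pow_mem_pow hϖ1 k) hj1
      obtain ⟨d, hd⟩ := Ideal.mem_span_singleton.1 h1
      have h3 := congrArg (fun x => v (algebraMap C F x)) hd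
      simp only [map_mul, map_pow] at h3
      rw [hunit j hj2, mul_one] at h3
      rw [h3]
      exact mul_le_of_le_one_right' (hv1 d)
  choose kC hkC using hk
  have hfr : ∀ x : F, ∃ c d : C, x ≠ 0 → c ≠ 0 ∧ d ≠ 0 ∧ x = algebraMap C F c / algebraMap C F d := by
    intro x
    obtain ⟨c, d, hd, rfl⟩ := IsFractionRing.div_surjective (A := C) x
    refine ⟨c, d, fun hx => ⟨?_, nonZeroDivisors.ne_zero hd, rfl⟩⟩
    rintro rfl
    rw [map_zero, zero_div] at hx
    exact hx rfl
  choose cf df hcd using hfr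
  refine ⟨fun x => (kC (df x) : ℤ) - kC (cf x), fun v hv hv1 hv2 x hx => ?_⟩
  have hval : ∀ x : F, x ≠ 0 → v x = v (algebraMap C F ϖ) ^ ((kC (cf x) : ℤ) - kC (df x)) := by
    intro x hx
    obtain ⟨h1, h2, h3⟩ := hcd x hx
    have hne : v (algebraMap C F ϖ) ≠ 0 := by
      rw [Valuation.ne_zero_iff]
      exact (map_ne_zero_iff _ (IsFractionRing.injective C F)).2 hϖ0
    conv_lhs => rw [h3]
    rw [map_div₀, hkC _ h1 v hv1 hv2, hkC _ h2 v hv1 hv2, zpow_sub₀ hne, zpow_natCast, zpow_natCast]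
  have hϖv : v (algebraMap C F ϖ) = WithZero.exp (-1 : ℤ) := by
    have hne : v (algebraMap C F ϖ) ≠ 0 := by
      rw [Valuation.ne_zero_iff]
      exact (map_ne_zero_iff _ (IsFractionRing.injective C F)).2 hϖ0
    set m := WithZero.log (v (algebraMap C F ϖ)) with hm
    have h1 : v (algebraMap C F ϖ) = WithZero.exp m := (WithZero.exp_log hne).symm
    have h2 : m < 0 := by
      have h3 := (hv2 ϖ).2 hϖ1
      rw [h1, ← WithZero.exp_zero, WithZero.exp_lt_exp] at h3
      exact h3
    obtain ⟨x, hx⟩ := hv (WithZero.exp (-1 : ℤ))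
    have hx0 : x ≠ 0 := by
      rintro rfl
      rw [map_zero] at hx
      exact WithZero.exp_ne_zero hx.symm
    have h3 := hval x hx0
    rw [hx, h1, ← WithZero.exp_zsmul, WithZero.exp_inj] at h3
    have h4 : m ∣ -1 := ⟨_, by rw [h3, smul_eq_mul, mul_comm]⟩
    have h5 : m = -1 := by
      rcases Int.isUnit_iff.1 (isUnit_of_dvd_unit h4 (by decide)) with h | h
      · omega
      · exact h
    rw [h1, h5]
  rw [hval x hx, hϖv, ← WithZero.exp_zsmul]
  congr 1
  rw [smul_eq_mul]
  ring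


/-- integral elements have valuation at most one -/
theorem val_int {B F : Type*} [CommRing B] [Field F] [Algebra B F] (v : Valuation F ℤᵐ⁰)
    (hB : ∀ b : B, v (algebraMap B F b) ≤ 1) (c : F) (hc : IsIntegral B c) : v c ≤ 1 := by
  by_contra hcon
  push Not at hcon
  obtain ⟨p, hp, hpc⟩ := hc
  have hc' : v c ≠ 0 := (zero_lt_one.trans hcon).ne'
  have h1 : c ^ p.natDegree = -∑ i ∈ Finset.range p.natDegree, algebraMap B F (p.coeff i) * c ^ i := by
    rw [Polynomial.eval₂_eq_sum_range, Finset.sum_range_succ, ← Polynomial.leadingCoeff, hp.leadingCoeff,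
      map_one, one_mul] at hpc
    exact eq_neg_of_add_eq_zero_right hpc
  have h2 : v (c ^ p.natDegree) < v c ^ p.natDegree := by
    rw [h1, Valuation.map_neg]
    refine Valuation.map_sum_lt v (pow_ne_zero _ hc') fun i hi => ?_
    rw [map_mul, map_pow]
    refine (mul_le_of_le_one_left' (hB (p.coeff i))).trans_lt ?_
    exact pow_lt_pow_right₀ hcon (Finset.mem_range.1 hi)
  rw [map_pow] at h2
  exact lt_irrefl _ h2

/-- the centre of a valuation -/
theorem exists_centre {C F : Type*} [CommRing C] [Field F] [Algebra C F] (v : Valuation F ℤᵐ⁰)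
    (hv : ∀ c : C, v (algebraMap C F c) ≤ 1) :
    ∃ P : Ideal C, P.IsPrime ∧ ∀ c : C, v (algebraMap C F c) < 1 ↔ c ∈ P := by
  let P : Ideal C :=
    { carrier := {c | v (algebraMap C F c) < 1}
      add_mem' := fun {a b} ha hb => by
        show v _ < 1
        rw [map_add]
        exact Valuation.map_add_lt v ha hb
      zero_mem' := by
        show v _ < 1
        rw [map_zero, map_zero]
        exact zero_lt_one
      smul_mem' := fun a b hb => by
        show v _ < 1
        rw [smul_eq_mul, map_mul, map_mul]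
        exact (mul_le_of_le_one_left' (hv a)).trans_lt hb }
  have hPmem : ∀ c : C, c ∈ P ↔ v (algebraMap C F c) < 1 := fun c => Iff.rfl
  refine ⟨P, ?_, fun c => (hPmem c).symm⟩
  rw [Ideal.isPrime_iff]
  constructor
  · intro h
    have h1 : (1 : C) ∈ P := by rw [h]; trivial
    rw [hPmem, map_one, map_one] at h1
    exact lt_irrefl _ h1
  · intro a b hab
    rw [hPmem, map_mul, map_mul] at hab
    by_contra hcon
    push Not at hcon
    rw [hPmem, hPmem, not_lt, not_lt] at hcon
    have h1 := le_antisymm (hv a) hcon.1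
    have h2 := le_antisymm (hv b) hcon.2
    rw [h1, h2, one_mul] at hab
    exact lt_irrefl _ hab

/-- finitely many normalized discrete valuations of the field of fractions of a Dedekind domain `C`, at most one
on `C`, are less than one at a nonzero element -/
theorem finite_ded {C F : Type*} [CommRing C] [IsDedekindDomain C] [Field F] [Algebra C F] [IsFractionRing C F]
    (w : C) (hw : w ≠ 0) : {v : Valuation F ℤᵐ⁰ | Function.Surjective v ∧ (∀ c : C, v (algebraMap C F c) ≤ 1) ∧
      v (algebraMap C F w) < 1}.Finite := by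
  classical
  -- the centres
  have hcen : ∀ v : Valuation F ℤᵐ⁰, ∃ P : Ideal C, (Function.Surjective v ∧ (∀ c : C, v (algebraMap C F c) ≤ 1) ∧
      v (algebraMap C F w) < 1) → P.IsPrime ∧ (∀ c : C, v (algebraMap C F c) < 1 ↔ c ∈ P) := by
    intro v
    by_cases h : ∀ c : C, v (algebraMap C F c) ≤ 1
    · obtain ⟨P, hP⟩ := exists_centre v h
      exact ⟨P, fun _ => hP⟩
    · exact ⟨⊥, fun h2 => absurd h2.2.1 h⟩
  choose PP hPP using hcen
  have hI : Ideal.span {w} ≠ (0 : Ideal C) := by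
    rwa [Ne, Ideal.zero_eq_bot, Ideal.span_singleton_eq_bot]
  have hfP : {P : HeightOneSpectrum C | P.asIdeal ∣ Ideal.span {w}}.Finite := Ideal.finite_factors hI
  have hfP' := hfP.image (fun P => P.asIdeal)
  have hne : ∀ v : Valuation F ℤᵐ⁰, (Function.Surjective v ∧ (∀ c : C, v (algebraMap C F c) ≤ 1) ∧
      v (algebraMap C F w) < 1) → PP v ≠ ⊥ := by
    intro v hv h
    have h1 := ((hPP v hv).2 w).1 hv.2.2
    rw [h] at h1
    exact hw h1
  refine Set.Finite.of_injOn (f := PP) (fun v hv => ?_) (fun v hv v' hv' heq => ?_) hfP'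
  · refine ⟨⟨PP v, (hPP v hv).1, hne v hv⟩, ?_, rfl⟩
    show PP v ∣ Ideal.span {w}
    rw [Ideal.dvd_span_singleton]
    exact ((hPP v hv).2 w).1 hv.2.2
  · obtain ⟨k, hk⟩ := val_det (F := F) (PP v) (hPP v hv).1 (hne v hv)
    ext x
    by_cases hx : x = 0
    · rw [hx, map_zero, map_zero]
    · have h1 := hk v hv.1 hv.2.1 (hPP v hv).2 x hx
      have h2 := hk v' hv'.1 hv'.2.1 (fun c => by rw [heq]; exact (hPP v' hv').2 c) x hx
      rw [h1, h2]

end Pool.Agent.Helper79.FE
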