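import Pool.Agent.Helper79.FE.Val
import Pool.Agent.Helper79.FE.Val2

set_option autoImplicit false

/-!
# Finitely many zeros
-/

namespace Pool.Agent.Helper79.FE

open scoped WithZero IntermediateField.algebraAdjoinAdjoin
open IsDedekindDomain Polynomial IntermediateField Module

variable {N E : Type*} [Field N] [CharZero N] [Field E] [Algebra N E]

section ded

variable (w : E) (hw : Transcendental N w)

include hw in
/-- a transcendental element has finitely many zeros -/
theorem finite_zeros [FiniteDimensional N⟮w⟯ E] : {v ∈ VN N E | v w < 1}.Finite := by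
  obtain ⟨hded, hfrac⟩ := ded_closure w hw
  have hwB : w ∈ Algebra.adjoin N {w} := Algebra.self_mem_adjoin_singleton N w
  have hw0 : w ≠ 0 := by
    rintro rfl
    exact hw (isAlgebraic_zero)
  have hfin := finite_ded (C := integralClosure (Algebra.adjoin N {w}) E) (F := E)
    (algebraMap (Algebra.adjoin N {w}) _ ⟨w, hwB⟩) (by
      intro h
      exact hw0 (congrArg (fun z : integralClosure (Algebra.adjoin N {w}) E => (z : E)) h))
  refine hfin.subset ?_
  rintro v ⟨hv, hvw⟩
  refine ⟨hv.1, fun c => ?_, hvw⟩
  refine val_int (B := Algebra.adjoin N {w}) v (fun b => ?_) _ c.2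
  obtain ⟨b, hb⟩ := b
  change v b ≤ 1
  induction hb using Algebra.adjoin_induction with
  | mem x hx =>
    rw [Set.mem_singleton_iff] at hx
    rw [hx]
    exact hvw.le
  | algebraMap r =>
    by_cases hr : r = 0
    · rw [hr, map_zero, map_zero]; exact zero_le_one
    · rw [hv.2 r hr]
  | add x y _ _ hx hy => exact (v.map_add x y).trans (max_le hx hy)
  | mul x y _ _ hx hy => rw [map_mul]; exact mul_le_one' hx hy

end ded

end Pool.Agent.Helper79.FE
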